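import Pool.Agent.TH937.LF.Main

/-!
# Density of attracting cycles of period at most 4 without logarithms, conclusion
-/

set_option autoImplicit false
open Complex Metric Set Filter Topology
open N62a1eb23
open Pool.Agent.H749R2.Hyp

namespace Pool.Agent.TH937.LF

theorem exp_neg_le {n : ℕ} (hn : 1 ≤ n) {y : ℝ} (hy0 : 0 ≤ y) (hy : 2 * y ≤ n) :
    Real.exp (-(2 * y)) ≤ (1 - y / n) ^ (n - 1) := by
  have hn' : (1:ℝ) ≤ n := by exact_mod_cast hn
  have hn0 : (0:ℝ) < n := by linarith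
  set x := y / n with hx
  have hx0 : 0 ≤ x := by positivity
  have hx1 : x ≤ 1 / 2 := by
    rw [hx, div_le_div_iff₀ hn0 (by norm_num)]; linarith
  have h1 : Real.exp (-(2 * x)) ≤ 1 - x := by
    rw [Real.exp_neg, inv_le_comm₀ (Real.exp_pos _) (by linarith)]
    have h2 := Real.add_one_le_exp (2 * x)
    have h3 : (1 - x)⁻¹ ≤ 2 * x + 1 := by
      rw [inv_le_iff_one_le_mul₀ (by linarith)]
      nlinarith
    linarith
  calc Real.exp (-(2 * y)) ≤ Real.exp (((n - 1 : ℕ) : ℝ) * (-(2 * x))) := by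
        rw [Real.exp_le_exp, Nat.cast_sub (by omega), Nat.cast_one]
        have : y = n * x := by rw [hx]; field_simp
        rw [this]; nlinarith
    _ = (Real.exp (-(2 * x))) ^ (n - 1) := Real.exp_nat_mul _ _
    _ ≤ (1 - x) ^ (n - 1) := by gcongr

theorem RC {n : ℕ} {c0 : ℂ} (B : Base 48000 n c0)
    (hU : Real.log (sz n c0) ≤ 12 * (D2 n c0 / sz n c0))
    (hS : Real.log (3840 * KK 48000) < Real.log (sz n c0))
    (hno : ∀ c ∈ ball c0 (48000 / (n * sz n c0)), ¬ Att4 n c) : False := by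
  have h := regimeC B hno
  have hU0 : 0 ≤ D2 n c0 / sz n c0 := div_nonneg (D2_nonneg _ _) (sz_nonneg _ _)
  linarith

theorem RB {n : ℕ} {c0 : ℂ} (B : Base 48000 n c0)
    (hU1 : 12 * (D2 n c0 / sz n c0) ≤ Real.log (sz n c0))
    (hU2 : 1 / 3 ≤ D2 n c0 / sz n c0)
    (hS : 400000 + Real.log (76800 * KK 48000) ≤ Real.log (sz n c0))
    (hno : ∀ c ∈ ball c0 (48000 / (n * (sz n c0 + D2 n c0))), ¬ Att4 n c) : False := by
  have hn : 64 ≤ n := B.hn
  have hn' : (64:ℝ) ≤ n := by exact_mod_cast hn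
  have hn0 : (0:ℝ) < n := by linarith
  have hs := B.hs
  have hs0 : 0 < sz n c0 := by linarith
  have hs2 := B.hs2
  have hD0 := D2_nonneg n c0
  have hE0 := D3_nonneg n c0
  have hK1 := one_le_KK (a := 48000) (by norm_num)
  have hw := w_bound B
  have hxs : n * ‖c0‖ ^ (n - 1) = sz n c0 := rfl
  set κ := KK 48000 with hκ
  set s := sz n c0 with hsd
  set ℓ := Real.log s with hℓ
  set U := D2 n c0 / s with hU
  have hU0 : 0 ≤ U := by positivity
  have hDU : D2 n c0 = s * U := by rw [hU]; field_simp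
  have hsl : s = Real.exp ℓ := (Real.exp_log hs0).symm
  have hL' : 0 ≤ Real.log (76800 * κ) := Real.log_nonneg (by linarith)
  have hl0 : 400000 ≤ ℓ := by linarith
  have hls : ℓ ≤ s := by
    have := Real.add_one_le_exp ℓ
    rw [← hsl] at this; linarith
  have hb : 28 ≤ D2 n c0 := by rw [hDU]; nlinarith
  obtain ⟨h1, h2, h3⟩ := regimeAB B hb hno
  set a3 := aa n c0 2 with ha3
  have ha3v : a3 = ‖1 + c0 ^ (n - 1) * (1 + c0 ^ (n - 1)) ^ n‖ := by
    rw [ha3]; unfold aa; rw [W_two]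
  have h3U : 2 * (3 * U) ≤ n := by
    linarith
  have hx1 : 3 * U / n ≤ 1 / 2 := by
    rw [div_le_div_iff₀ hn0 (by norm_num)]; linarith
  have ha3up : a3 ≤ 1 + 3 * U / n := by
    rw [ha3v]
    refine (norm_add_le _ _).trans ?_
    rw [norm_one]; linarith
  have ha3lo : 1 - 3 * U / n ≤ a3 := by
    have h4 := norm_sub_le (1 + c0 ^ (n - 1) * (1 + c0 ^ (n - 1)) ^ n)
      (c0 ^ (n - 1) * (1 + c0 ^ (n - 1)) ^ n)
    rw [add_sub_cancel_right, norm_one, ← ha3v] at h4
    linarith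
  have hp3lo : Real.exp (-(ℓ / 2)) ≤ a3 ^ (n - 1) := by
    calc Real.exp (-(ℓ / 2)) ≤ Real.exp (-(2 * (3 * U))) := by
          rw [Real.exp_le_exp]; linarith
      _ ≤ (1 - 3 * U / n) ^ (n - 1) := exp_neg_le (by omega) (by linarith) h3U
      _ ≤ a3 ^ (n - 1) := by
          gcongr
          linarith
  have hp3up : a3 ^ (n - 1) ≤ Real.exp (ℓ / 4) := by
    calc a3 ^ (n - 1) ≤ (1 + 3 * U / n) ^ (n - 1) := by gcongr
      _ ≤ Real.exp (3 * U) := one_add_div_pow_le (by omega) (by positivity) (by omega)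
      _ ≤ Real.exp (ℓ / 4) := by rw [Real.exp_le_exp]; linarith
  set q := s * a3 ^ (n - 1) with hq
  have hqlo : Real.exp (ℓ / 2) ≤ q := by
    calc Real.exp (ℓ / 2) = s * Real.exp (-(ℓ / 2)) := by
          rw [hsl, ← Real.exp_add]; congr 1; ring
      _ ≤ q := by rw [hq]; gcongr
  have hqup : q ≤ s ^ 2 := by
    calc q ≤ s * Real.exp (ℓ / 4) := by rw [hq]; gcongr
      _ ≤ s * Real.exp ℓ := by
          gcongr
          linarith
      _ = s ^ 2 := by rw [← hsl]; ring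
  have hqL : Real.log (76800 * κ) + 5 * ℓ ≤ q := by
    have h4 := Real.quadratic_le_exp_of_nonneg (x := ℓ / 2) (by linarith)
    nlinarith
  have hq0 : 0 < q := lt_of_lt_of_le (Real.exp_pos _) hqlo
  have ha4 : aa n c0 3 ≤ 1 + 2 * q / n := by
    have h4 : aa n c0 3 ≤ 1 + ‖c0‖ ^ (n - 1) * a3 ^ n := by
      rw [ha3]
      unfold aa
      show ‖1 + c0 ^ (n - 1) * (W n (c0 ^ (n - 1)) 2) ^ n‖ ≤ _
      refine (norm_add_le _ _).trans ?_
      rw [norm_one, norm_mul, norm_pow, norm_pow]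
    have hsp := pow_split (n := n) (by omega) a3
    rw [hsp] at h4
    have h5 : ‖c0‖ ^ (n - 1) * (a3 ^ (n - 1) * a3) ≤ 2 * q / n := by
      rw [le_div_iff₀ hn0]
      calc ‖c0‖ ^ (n - 1) * (a3 ^ (n - 1) * a3) * n
          = ((n * ‖c0‖ ^ (n - 1)) * a3 ^ (n - 1)) * a3 := by ring
        _ = q * a3 := by rw [hxs]
        _ ≤ q * 2 := by
            gcongr
            linarith
        _ = 2 * q := by ring
    linarith
  have haa3 := aa_nonneg n c0 3
  have hp4 : aa n c0 3 ^ (n - 1) ≤ Real.exp (2 * q) := by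
    calc aa n c0 3 ^ (n - 1) ≤ (1 + 2 * q / n) ^ (n - 1) := by gcongr
      _ ≤ Real.exp (2 * q) := one_add_div_pow_le (by omega) (by positivity) (by omega)
  have hD2 : D2 n c0 ≤ s ^ 2 := by
    rw [hDU, sq]
    gcongr
    linarith
  have hD3e : D3 n c0 = D2 n c0 * q := rfl
  have hD3 : D3 n c0 ≤ s ^ 4 := by
    rw [hD3e]
    calc D2 n c0 * q ≤ s ^ 2 * s ^ 2 := by gcongr
      _ = s ^ 4 := by ring
  have hs1 : (1:ℝ) ≤ s := by linarith
  have hsum : s + D2 n c0 + D3 n c0 ≤ 3 * s ^ 4 := by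
    have h4 : s ^ 1 ≤ s ^ 4 := pow_le_pow_right₀ hs1 (by norm_num)
    have h5 : s ^ 2 ≤ s ^ 4 := pow_le_pow_right₀ hs1 (by norm_num)
    linarith [pow_one s]
  have hlog : Real.log (aa n c0 3 ^ (n - 1) * (25600 * κ * (s * (s + D2 n c0 + D3 n c0))))
      ≤ 2 * q + (Real.log (76800 * κ) + 5 * ℓ) := by
    have h4 : aa n c0 3 ^ (n - 1) * (25600 * κ * (s * (s + D2 n c0 + D3 n c0)))
        ≤ Real.exp (2 * q) * ((76800 * κ) * s ^ 5) := by
      calc aa n c0 3 ^ (n - 1) * (25600 * κ * (s * (s + D2 n c0 + D3 n c0)))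
          ≤ Real.exp (2 * q) * (25600 * κ * (s * (3 * s ^ 4))) := by gcongr
        _ = _ := by ring
    have h5 := Real.log_le_log (by positivity) h4
    have h6 : Real.log (Real.exp (2 * q) * ((76800 * κ) * s ^ 5))
        = 2 * q + (Real.log (76800 * κ) + 5 * ℓ) := by
      rw [Real.log_mul (Real.exp_pos _).ne' (by positivity), Real.log_exp,
        Real.log_mul (by positivity) (by positivity), Real.log_pow]
      push_cast
      rfl
    rw [h6] at h5
    exact h5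
  have hlhs : q / 4 ≤ D3 n c0 / (s + D2 n c0) := by
    rw [div_le_div_iff₀ (by norm_num) (by linarith), hD3e, hDU]
    have h4 : s ≤ 3 * (s * U) := by
      calc s = s * (3 * (1 / 3)) := by ring
        _ ≤ s * (3 * U) := by gcongr
        _ = 3 * (s * U) := by ring
    have h5 := mul_le_mul_of_nonneg_left h4 hq0.le
    linarith
  linarith

theorem RA {n : ℕ} {c0 : ℂ} (B : Base 48000 n c0)
    (hU2 : D2 n c0 / sz n c0 ≤ 1 / 3)
    (hK : 3 / 2 * Real.log (128000 * KK 48000) + 28 ≤ D2 n c0)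
    (hno : ∀ c ∈ ball c0 (48000 / (n * (sz n c0 + D2 n c0))), ¬ Att4 n c) : False := by
  have hn : 64 ≤ n := B.hn
  have hn' : (64:ℝ) ≤ n := by exact_mod_cast hn
  have hn0 : (0:ℝ) < n := by linarith
  have hs := B.hs
  have hs0 : 0 < sz n c0 := by linarith
  have hs2 := B.hs2
  have hD0 := D2_nonneg n c0
  have hE0 := D3_nonneg n c0
  have hK1 := one_le_KK (a := 48000) (by norm_num)
  have hL'' : 0 ≤ Real.log (128000 * KK 48000) := Real.log_nonneg (by linarith)
  have hb : 28 ≤ D2 n c0 := by linarith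
  obtain ⟨h1, h2, h3⟩ := regimeAB B hb hno
  have hxs : n * ‖c0‖ ^ (n - 1) = sz n c0 := rfl
  have hDdef : D2 n c0 = sz n c0 * (sz n c0 * aa n c0 1 ^ (n - 1)) := rfl
  have hD3e : D3 n c0 = D2 n c0 * (sz n c0 * aa n c0 2 ^ (n - 1)) := rfl
  have ha11 := B.h1
  have ha12 := B.h1'
  have ha3v : aa n c0 2 = ‖1 + c0 ^ (n - 1) * (1 + c0 ^ (n - 1)) ^ n‖ := by
    unfold aa; rw [W_two]
  have ha4v : aa n c0 3 = ‖1 + c0 ^ (n - 1) *
      (1 + c0 ^ (n - 1) * (1 + c0 ^ (n - 1)) ^ n) ^ n‖ := by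
    unfold aa; rw [W_three]
  have ha1v : aa n c0 1 = ‖1 + c0 ^ (n - 1)‖ := by unfold aa; rw [W_one]
  set κ := KK 48000 with hκ
  set s := sz n c0 with hsd
  set D := D2 n c0 with hD
  set a1 := aa n c0 1 with ha1
  set a3 := aa n c0 2 with ha3
  set p := a1 ^ (n - 1) with hp
  have ha10 : 0 ≤ a1 := by linarith
  have hp0 : 0 ≤ p := by positivity
  set v := c0 ^ (n - 1) with hv
  set w := v * (1 + v) ^ n with hwd
  have hvn : ‖v‖ = ‖c0‖ ^ (n - 1) := norm_pow _ _
  have hsp : s * p ≤ 1 / 3 := by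
    have : D / s = s * p := by rw [hDdef]; field_simp
    rw [← this]; exact hU2
  have hspn : 0 ≤ s * p := by positivity
  have hwn : n * ‖w‖ = s * p * a1 := by
    rw [hwd, norm_mul, norm_pow (1 + v) n, ← ha1v, hvn, pow_split (n := n) (by omega) a1, ← hxs]
    ring
  have hwn1 : n * ‖w‖ ≤ 1 := by rw [hwn]; nlinarith
  have hw1 : ‖w‖ ≤ 1 / n := by
    rw [le_div_iff₀ hn0]; linarith [mul_comm (n:ℝ) ‖w‖]
  have ha3up : a3 ≤ 1 + 1 / n := by
    rw [ha3v]
    refine (norm_add_le _ _).trans ?_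
    rw [norm_one]; linarith
  have ha3lo : 1 - 1 / n ≤ a3 := by
    have h4 := norm_sub_le (1 + w) w
    rw [add_sub_cancel_right, norm_one, ← ha3v] at h4
    linarith
  have ha30 : 0 ≤ a3 := aa_nonneg _ _ _
  have hn1 : (1:ℝ) / n ≤ 1 := by
    rw [div_le_one hn0]; linarith
  have hp3up : a3 ^ (n - 1) ≤ 3 := by
    have he := exp1_le
    calc a3 ^ (n - 1) ≤ (1 + 1 / n) ^ (n - 1) := by gcongr
      _ ≤ Real.exp 1 := one_add_div_pow_le (by omega) (by norm_num) (by omega)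
      _ ≤ 3 := by linarith
  have hp3lo : 1 / 8 ≤ a3 ^ (n - 1) := by
    have h4 : (1:ℝ) / 8 ≤ Real.exp (-(2 * 1)) := by
      rw [Real.exp_neg, one_div]
      refine inv_anti₀ (Real.exp_pos _) ?_
      have he := exp1_le
      have : Real.exp (2 * 1) = Real.exp 1 * Real.exp 1 := by
        rw [← Real.exp_add]; norm_num
      rw [this]
      have := Real.exp_pos 1
      nlinarith
    calc (1:ℝ) / 8 ≤ Real.exp (-(2 * 1)) := h4
      _ ≤ (1 - 1 / n) ^ (n - 1) := exp_neg_le (by omega) (by norm_num) (by linarith)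
      _ ≤ a3 ^ (n - 1) := pow_le_pow_left₀ (by linarith) ha3lo _
  -- the fourth iterate
  have hW : ‖(1 + w) ^ n - 1‖ ≤ 2 * (s * p * a1) := by
    have h4 := pow_sub_pow_le 1 w n
    simp only [one_pow, norm_one] at h4
    refine h4.trans ?_
    have h5 : (1 + ‖w‖) ^ n ≤ Real.exp (n * ‖w‖) := by
      rw [Real.exp_nat_mul]
      gcongr
      have := Real.add_one_le_exp ‖w‖; linarith
    have h6 := Real.abs_exp_sub_one_le (x := n * ‖w‖) (by
      rw [abs_of_nonneg (by positivity)]; exact hwn1)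
    rw [abs_of_nonneg (a := n * ‖w‖) (by positivity)] at h6
    have h7 := le_abs_self (Real.exp (n * ‖w‖) - 1)
    rw [← hwn]
    linarith
  have ha4 : aa n c0 3 ≤ a1 * (1 + 2 * D / n) := by
    have h4 : 1 + v * (1 + w) ^ n = (1 + v) + v * ((1 + w) ^ n - 1) := by ring
    rw [ha4v, h4]
    refine (norm_add_le _ _).trans ?_
    rw [norm_mul, ← ha1v, hvn]
    have h5 : ‖c0‖ ^ (n - 1) * ‖(1 + w) ^ n - 1‖ ≤ a1 * (2 * D / n) := by
      calc ‖c0‖ ^ (n - 1) * ‖(1 + w) ^ n - 1‖ ≤ ‖c0‖ ^ (n - 1) * (2 * (s * p * a1)) := by gcongr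
        _ = (n * ‖c0‖ ^ (n - 1)) * (2 * (s * p * a1)) / n := by field_simp
        _ = a1 * (2 * D / n) := by rw [hxs, hDdef]; ring
    linarith
  have haa3 := aa_nonneg n c0 3
  have hp4 : aa n c0 3 ^ (n - 1) ≤ p * Real.exp (2 * D) := by
    calc aa n c0 3 ^ (n - 1) ≤ (a1 * (1 + 2 * D / n)) ^ (n - 1) := by gcongr
      _ = p * (1 + 2 * D / n) ^ (n - 1) := by rw [mul_pow]
      _ ≤ p * Real.exp (2 * D) := by
          gcongr
          exact one_add_div_pow_le (by omega) (by positivity) (by omega)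
  have hDs : D ≤ s / 3 := by
    calc D = s * (s * p) := hDdef
      _ ≤ s * (1 / 3) := by gcongr
      _ = s / 3 := by ring
  have hsD : s ≤ s * D := by
    calc s = s * 1 := (mul_one s).symm
      _ ≤ s * D := by
        gcongr
        linarith
  have hsum : s + D + D3 n c0 ≤ 5 * (s * D) := by
    rw [hD3e]
    have h4 : D * (s * a3 ^ (n - 1)) ≤ D * (s * 3) := by gcongr
    linarith
  have hlog : Real.log (aa n c0 3 ^ (n - 1) * (25600 * κ * (s * (s + D + D3 n c0))))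
      ≤ Real.log (128000 * κ) + 4 * D := by
    have hDpos : 0 < D := by linarith
    have h4 : aa n c0 3 ^ (n - 1) * (25600 * κ * (s * (s + D + D3 n c0)))
        ≤ Real.exp (2 * D) * ((128000 * κ) * D ^ 2) := by
      calc aa n c0 3 ^ (n - 1) * (25600 * κ * (s * (s + D + D3 n c0)))
          ≤ (p * Real.exp (2 * D)) * (25600 * κ * (s * (5 * (s * D)))) := by gcongr
        _ = Real.exp (2 * D) * ((128000 * κ) * ((s * (s * p)) * D)) := by ring
        _ = _ := by rw [← hDdef]; ring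
    have h5 := Real.log_le_log (by positivity) h4
    have h7 : Real.log (Real.exp (2 * D) * ((128000 * κ) * D ^ 2))
        = 2 * D + (Real.log (128000 * κ) + 2 * Real.log D) := by
      rw [Real.log_mul (Real.exp_pos _).ne' (by positivity), Real.log_exp,
        Real.log_mul (by positivity) (by positivity), Real.log_pow]
      push_cast
      rfl
    rw [h7] at h5
    have h6 := Real.log_le_sub_one_of_pos hDpos
    linarith
  have hlhs : 3 * D / 32 ≤ D3 n c0 / (s + D) := by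
    rw [div_le_div_iff₀ (by norm_num) (by linarith), hD3e]
    have h4 : D * (s * (1 / 8)) ≤ D * (s * a3 ^ (n - 1)) := by gcongr
    have h5 : 3 * D * (s + D) ≤ 4 * (D * s) := by
      calc 3 * D * (s + D) ≤ 3 * D * (s + s / 3) := by gcongr
        _ = 4 * (D * s) := by ring
    linarith
  linarith

theorem R0 {n : ℕ} (hn : 64 ≤ n) {c0 : ℂ} {A K : ℝ} (hA : 0 < A)
    (hs : 4 ≤ sz n c0) (hx : ‖c0‖ ≤ 2) (ha : aa n c0 1 ≤ 3)
    (hK : D2 n c0 ≤ K)
    (hno : ∀ c ∈ ball c0 (A / (n * sz n c0)), ¬ Att4 n c) : A ≤ 48 * Real.log (440 * K) := by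
  have hn' : (64:ℝ) ≤ n := by exact_mod_cast hn
  have hn0 : (0:ℝ) < n := by linarith
  have hs0 : 0 < sz n c0 := by linarith
  have hr0 : 0 < A / (n * sz n c0) := by positivity
  have h := sp2 hn hr0 (fun c' hc' h => hno c' hc' (att4_of_att2 h))
  have hlow := low2 hn (fun h => hno c0 (mem_ball_self hr0) (att4_of_att2 h))
  have ha1v : aa n c0 1 = ‖1 + c0 ^ (n - 1)‖ := by unfold aa; rw [W_one]
  have haa := aa_nonneg n c0 1
  have hDdef : (n * ‖c0‖ ^ (n - 1)) ^ 2 * ‖1 + c0 ^ (n - 1)‖ ^ (n - 1) = D2 n c0 := by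
    rw [← ha1v]; unfold D2 sz; ring
  rw [hDdef] at h hlow
  have hlogle : Real.log (440 * D2 n c0) ≤ Real.log (440 * K) :=
    Real.log_le_log (by linarith) (by linarith)
  have hlog0 : 0 ≤ Real.log (440 * D2 n c0) := Real.log_nonneg (by linarith)
  have hv : ‖c0 ^ (n - 1)‖ = ‖c0‖ ^ (n - 1) := norm_pow _ _
  have hlin : sz n c0 / 2 ≤ ‖2 + ((n:ℂ) + 1) * c0 ^ (n - 1)‖ := by
    have h3 : ‖((n:ℂ) + 1) * c0 ^ (n - 1)‖ = (n + 1) * ‖c0‖ ^ (n - 1) := by
      rw [norm_mul, hv]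
      congr 1
      have : ((n:ℂ) + 1) = ((n + 1 : ℕ) : ℂ) := by push_cast; ring
      rw [this, Complex.norm_natCast]; push_cast; ring
    have h4 := norm_sub_le (2 + ((n:ℂ) + 1) * c0 ^ (n - 1)) 2
    rw [add_sub_cancel_left, h3] at h4
    have h5 : ‖(2:ℂ)‖ = 2 := by simp
    rw [h5] at h4
    have h6 : 0 ≤ ‖c0‖ ^ (n - 1) := by positivity
    have h7 : sz n c0 = n * ‖c0‖ ^ (n - 1) := rfl
    linarith
  have h1 : A / 4 ≤ ((n:ℝ) - 1) * ‖2 + ((n:ℂ) + 1) * c0 ^ (n - 1)‖ * (A / (n * sz n c0)) := by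
    have hn1 : (0:ℝ) ≤ n - 1 := by linarith
    calc A / 4 ≤ A * (((n - 1) / n) / 2) := by
          have h13 : (1:ℝ) / 2 ≤ (n - 1) / n := by
            rw [div_le_div_iff₀ (by norm_num) hn0]; linarith
          nlinarith
      _ = ((n:ℝ) - 1) * (sz n c0 / 2) * (A / (n * sz n c0)) := by field_simp
      _ ≤ _ := by gcongr
  have h2 : 2 * ‖c0‖ * aa n c0 1 * Real.log (440 * D2 n c0) ≤ 2 * 2 * 3 * Real.log (440 * K) := by
    gcongr
  rw [← ha1v] at h
  linarith

/-- threshold for `log s` -/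
noncomputable def ell0 : ℝ := 400000 + Real.log (76800 * KK 48000)
noncomputable def K0 : ℝ := 3 / 2 * Real.log (128000 * KK 48000) + 28
noncomputable def Af : ℝ := max 48000 (48 * Real.log (440 * K0) + 1)

theorem core {n : ℕ} {c0 : ℂ} (hn : 64 ≤ n)
    (hN : 70000 * KK 48000 * (n:ℝ) ^ 4 * (3 / 4) ^ (n - 1) < 1) (hA : 8 * (2 * 48000) ≤ (n:ℝ))
    (hs : ell0 ≤ Real.log (sz n c0)) (hc : c0 ∈ multibrotSet n) :
    ∃ c, Att4 n c ∧ ‖c - c0‖ ≤ Af / (n * sz n c0) := by
  by_contra hcon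
  push Not at hcon
  have hn' : (64:ℝ) ≤ n := by exact_mod_cast hn
  have hn0 : (0:ℝ) < n := by linarith
  have hK1 := one_le_KK (a := 48000) (by norm_num)
  have hL' : 0 ≤ Real.log (76800 * KK 48000) := Real.log_nonneg (by linarith)
  have hs' : 400000 ≤ Real.log (sz n c0) := by unfold ell0 at hs; linarith
  have hs0 : 0 < sz n c0 := by
    by_contra h
    have h0 : sz n c0 = 0 := le_antisymm (not_lt.1 h) (sz_nonneg _ _)
    rw [h0, Real.log_zero] at hs'
    norm_num at hs'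
  have hs1 : 8 * 48000 ≤ sz n c0 := by
    have := Real.log_le_sub_one_of_pos hs0
    linarith
  have hno : ∀ r, r ≤ Af → ∀ c ∈ ball c0 (r / (n * sz n c0)), ¬ Att4 n c := by
    intro r hr c hc' hatt
    have h1 := hcon c hatt
    rw [mem_ball, dist_eq_norm] at hc'
    have h2 : r / (n * sz n c0) ≤ Af / (n * sz n c0) := by gcongr
    linarith
  have hAf1 : 48000 ≤ Af := le_max_left _ _
  have hno1 := hno 48000 hAf1
  have hself : ¬ Att4 n c0 := hno1 c0 (mem_ball_self (by positivity))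
  have B : Base 48000 n c0 := base_of le_rfl hn hN hA hs1 hc hself
  have hD0 := D2_nonneg n c0
  have hno2 : ∀ c ∈ ball c0 (48000 / (n * (sz n c0 + D2 n c0))), ¬ Att4 n c := by
    intro c hc'
    refine hno1 c (ball_subset_ball ?_ hc')
    gcongr
    linarith
  have hlt : Real.log (3840 * KK 48000) < Real.log (sz n c0) := by
    have : Real.log (3840 * KK 48000) ≤ Real.log (76800 * KK 48000) :=
      Real.log_le_log (by linarith) (by linarith)
    unfold ell0 at hs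
    linarith
  rcases le_total (Real.log (sz n c0)) (12 * (D2 n c0 / sz n c0)) with h1 | h1
  · exact RC B h1 hlt hno1
  rcases le_total (1 / 3) (D2 n c0 / sz n c0) with h2 | h2
  · exact RB B h1 h2 hs hno2
  rcases le_total K0 (D2 n c0) with h3 | h3
  · exact RA B h2 h3 hno2
  · have h4 := R0 hn (A := Af) (K := K0) (by linarith) (by linarith) B.hx2 B.h1' h3 (hno Af le_rfl)
    have h5 : 48 * Real.log (440 * K0) + 1 ≤ Af := le_max_right _ _
    linarith

theorem exists_N : ∃ N : ℕ, 64 ≤ N ∧ 8 * (2 * 48000) ≤ (N:ℝ) ∧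
    ∀ n : ℕ, N ≤ n → 70000 * KK 48000 * (n:ℝ) ^ 4 * (3 / 4) ^ (n - 1) < 1 := by
  have h1 := tendsto_pow_const_mul_const_pow_of_abs_lt_one 4 (r := (3:ℝ) / 4)
    (by rw [abs_of_nonneg] <;> norm_num)
  have h2 := h1.const_mul (70000 * KK 48000 * (4 / 3))
  rw [mul_zero] at h2
  obtain ⟨N, hN⟩ := (h2.eventually_lt_const (by norm_num : (0:ℝ) < 1)).exists_forall_of_atTop
  refine ⟨max N 1000000, le_max_of_le_right (by norm_num), ?_, ?_⟩
  · have : ((1000000:ℕ):ℝ) ≤ ((max N 1000000 : ℕ) : ℝ) := by exact_mod_cast le_max_right _ _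
    push_cast at this ⊢
    linarith
  · intro n hn
    have hn1 : N ≤ n := (le_max_left _ _).trans hn
    have hn2 : 1000000 ≤ n := (le_max_right _ _).trans hn
    have h3 := hN n hn1
    have h4 : ((3:ℝ) / 4) ^ n = (3 / 4) ^ (n - 1) * (3 / 4) := pow_split (by omega) _
    rw [h4] at h3
    calc 70000 * KK 48000 * (n:ℝ) ^ 4 * (3 / 4) ^ (n - 1)
        = 70000 * KK 48000 * (4 / 3) * ((n:ℝ) ^ 4 * ((3 / 4) ^ (n - 1) * (3 / 4))) := by ring
      _ < 1 := h3

/-- The logarithm free density theorem. -/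
theorem logFree : ∃ C : ℝ, ∀ n : ℕ, 2 ≤ n → ∀ c ∈ multibrotSet n, ∃ c', Att4 n c' ∧
    ‖c' - c‖ * (n * (1 + n * ‖c‖ ^ (n - 1))) ≤ C := by
  obtain ⟨N, hN64, hNA, hN⟩ := exists_N
  have hAf : 48000 ≤ Af := le_max_left _ _
  refine ⟨2 * Af + 300 * (1 + Real.exp ell0) + 300 * (1 + 2 * N), ?_⟩
  intro n hn c hc
  have hn' : (2:ℝ) ≤ n := by exact_mod_cast hn
  have hn0 : (0:ℝ) < n := by linarith
  have hsdef : n * ‖c‖ ^ (n - 1) = sz n c := rfl
  have hs0 := sz_nonneg n c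
  have he := Real.exp_pos ell0
  have hN0 : (0:ℝ) ≤ N := by positivity
  rw [hsdef]
  have hcoarse : ∃ c', Att4 n c' ∧ ‖c' - c‖ * (n * (1 + sz n c)) ≤ 300 * (1 + sz n c) := by
    obtain ⟨c', h1, h2, -⟩ := coarse hn hc
    refine ⟨c', att4_of_att2 h1, ?_⟩
    calc ‖c' - c‖ * (n * (1 + sz n c)) ≤ 300 / n * (n * (1 + sz n c)) := by gcongr
      _ = 300 * (1 + sz n c) := by field_simp
  rcases lt_or_ge n N with h1 | h1
  · obtain ⟨c', h2, h3⟩ := hcoarse
    refine ⟨c', h2, h3.trans ?_⟩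
    have h4 := t_le_two hn hc
    have h5 : sz n c ≤ 2 * N := by
      have h6 : (n:ℝ) ≤ N := by exact_mod_cast h1.le
      rw [← hsdef]
      have : 0 ≤ ‖c‖ ^ (n - 1) := by positivity
      nlinarith
    nlinarith
  rcases lt_or_ge (Real.log (sz n c)) ell0 with h2 | h2
  · obtain ⟨c', h3, h4⟩ := hcoarse
    refine ⟨c', h3, h4.trans ?_⟩
    have h5 : sz n c ≤ Real.exp ell0 := by
      rcases hs0.lt_or_eq with h6 | h6
      · rw [← Real.exp_log h6, Real.exp_le_exp]; exact h2.le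
      · rw [← h6]; exact he.le
    nlinarith
  · have hnA : 8 * (2 * 48000) ≤ (n:ℝ) := by
      have : (N:ℝ) ≤ n := by exact_mod_cast h1
      linarith
    obtain ⟨c', h3, h4⟩ := core (hN64.trans h1) (hN n h1) hnA h2 hc
    refine ⟨c', h3, ?_⟩
    have hK1 := one_le_KK (a := 48000) (by norm_num)
    have hL' : 0 ≤ Real.log (76800 * KK 48000) := Real.log_nonneg (by linarith)
    have h5 : 1 ≤ sz n c := by
      have h6 : 400000 ≤ Real.log (sz n c) := by unfold ell0 at h2; linarith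
      have h7 : 0 < sz n c := by
        by_contra h
        have h0 : sz n c = 0 := le_antisymm (not_lt.1 h) (sz_nonneg _ _)
        rw [h0, Real.log_zero] at h6
        norm_num at h6
      have := Real.log_le_sub_one_of_pos h7
      linarith
    have h6 : 0 < sz n c := by linarith
    calc ‖c' - c‖ * (n * (1 + sz n c)) ≤ Af / (n * sz n c) * (n * (2 * sz n c)) := by
          gcongr
          linarith
      _ = 2 * Af := by field_simp
      _ ≤ _ := by nlinarith

end Pool.Agent.TH937.LF
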