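import Pool.Agent.H749R2.Hyp2

/-!
# Criteria for attracting cycles of period 3 and 4 of `z ^ n + c`, uniform in the degree
-/

set_option autoImplicit false
open Complex Metric Set Filter Topology
open N62a1eb23
open Pool.Agent.H749R2.Hyp

namespace Pool.Agent.TH937.LF

theorem add_pow_le_aux (x δ : ℝ) (hx : 0 ≤ x) (hδ : 0 ≤ δ) (n : ℕ) :
    (x + δ) ^ n - x ^ n ≤ n * δ * (x + δ) ^ (n - 1) := by
  induction n with
  | zero => simp
  | succ n ih =>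
    rcases Nat.eq_zero_or_pos n with h0 | h0
    · subst h0; simp
    · have h1 : (x + δ) ^ n = (x + δ) ^ (n - 1) * (x + δ) := by
        conv_lhs => rw [show n = (n - 1) + 1 by omega]
        rw [pow_succ]
      have hp : 0 ≤ (x + δ) ^ (n - 1) := by positivity
      rw [show n + 1 - 1 = n by omega]
      have h2 : (x + δ) ^ (n + 1) - x ^ (n + 1)
          = x * ((x + δ) ^ n - x ^ n) + δ * (x + δ) ^ n := by ring
      rw [h2]
      have h3 : x * ((x + δ) ^ n - x ^ n) ≤ x * (n * δ * (x + δ) ^ (n - 1)) := by gcongr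
      have h4 : x * (n * δ * (x + δ) ^ (n - 1)) ≤ n * δ * (x + δ) ^ n := by
        rw [h1]
        have : 0 ≤ n * δ * ((x + δ) ^ (n - 1) * δ) := by positivity
        nlinarith
      push_cast
      nlinarith

/-- one step: the image of a small disc -/
theorem step_le {n : ℕ} (hn : 2 ≤ n) {z w : ℂ} (h : ‖w - z‖ ≤ ‖z‖ / n) :
    ‖w ^ n - z ^ n‖ ≤ Real.exp 1 * (n * ‖z‖ ^ (n - 1)) * ‖w - z‖ := by
  have hn0 : (0:ℝ) < n := by
    have : (2:ℝ) ≤ n := by exact_mod_cast hn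
    linarith
  have h1 := pow_sub_pow_le z (w - z) n
  rw [add_sub_cancel] at h1
  refine h1.trans ?_
  refine (add_pow_le_aux ‖z‖ ‖w - z‖ (norm_nonneg _) (norm_nonneg _) n).trans ?_
  have h2 : (‖z‖ + ‖w - z‖) ^ (n - 1) ≤ ‖z‖ ^ (n - 1) * Real.exp 1 := by
    calc (‖z‖ + ‖w - z‖) ^ (n - 1) ≤ (‖z‖ * (1 + 1 / n)) ^ (n - 1) := by
          gcongr
          have : ‖z‖ * (1 + 1 / n) = ‖z‖ + ‖z‖ / n := by ring
          rw [this]; gcongr
      _ = ‖z‖ ^ (n - 1) * (1 + 1 / n) ^ (n - 1) := mul_pow _ _ _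
      _ ≤ ‖z‖ ^ (n - 1) * Real.exp 1 := by
          gcongr
          exact one_add_div_pow_le (n := n) (θ := 1) (by omega) (by norm_num) (by omega)
  calc n * ‖w - z‖ * (‖z‖ + ‖w - z‖) ^ (n - 1) ≤ n * ‖w - z‖ * (‖z‖ ^ (n - 1) * Real.exp 1) := by
        gcongr
    _ = _ := by ring

/-- the derivative at a point of a small disc -/
theorem deriv_le {n : ℕ} (hn : 2 ≤ n) {z w : ℂ} (h : ‖w - z‖ ≤ ‖z‖ / n) :
    n * ‖w‖ ^ (n - 1) ≤ Real.exp 1 * (n * ‖z‖ ^ (n - 1)) := by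
  have hn0 : (0:ℝ) < n := by
    have : (2:ℝ) ≤ n := by exact_mod_cast hn
    linarith
  have h0 : ‖w‖ ≤ ‖z‖ * (1 + 1 / n) := by
    calc ‖w‖ = ‖z + (w - z)‖ := by ring_nf
      _ ≤ ‖z‖ + ‖w - z‖ := norm_add_le _ _
      _ ≤ ‖z‖ + ‖z‖ / n := by gcongr
      _ = _ := by ring
  calc n * ‖w‖ ^ (n - 1) ≤ n * (‖z‖ * (1 + 1 / n)) ^ (n - 1) := by gcongr
    _ = n * ‖z‖ ^ (n - 1) * (1 + 1 / n) ^ (n - 1) := by rw [mul_pow]; ring
    _ ≤ n * ‖z‖ ^ (n - 1) * Real.exp 1 := by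
        gcongr
        exact one_add_div_pow_le (n := n) (θ := 1) (by omega) (by norm_num) (by omega)
    _ = _ := by ring

/-- Criterion for an attracting cycle of period `k + 1`. -/
theorem crit {n k : ℕ} (hn : 2 ≤ n) {c : ℂ} {ρ : ℕ → ℝ} (h0 : 0 < ρ 0)
    (h1 : ∀ j < k, ρ j ≤ ‖(f n c)^[j] c‖ / n)
    (h2 : ∀ j < k, Real.exp 1 * (n * ‖(f n c)^[j] c‖ ^ (n - 1)) * ρ j ≤ ρ (j + 1))
    (h3 : (‖(f n c)^[k] c‖ + ρ k) ^ n ≤ ρ 0)
    (h4 : ρ k * (n * (‖(f n c)^[k] c‖ + ρ k) ^ (n - 1)) ≤ ρ 0 / 2) :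
    ∃ z, IsAttractingCycle (fun z => z ^ n + c) (k + 1) z := by
  have hdiff : ∀ j, Differentiable ℂ (f n c)^[j] := fun j => (differentiable_f n c).iterate j
  have key : ∀ z ∈ closedBall c (ρ 0), ∀ j ≤ k,
      ‖(f n c)^[j] z - (f n c)^[j] c‖ ≤ ρ j ∧ ‖deriv (f n c)^[j] z‖ * ρ 0 ≤ ρ j := by
    intro z hz j
    rw [mem_closedBall, dist_eq_norm] at hz
    induction j with
    | zero =>
      intro _
      refine ⟨by simpa using hz, ?_⟩
      simp
    | succ j ih =>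
      intro hj
      obtain ⟨ih1, ih2⟩ := ih (by omega)
      have hs := ih1.trans (h1 j (by omega))
      have hE : 0 ≤ Real.exp 1 * (n * ‖(f n c)^[j] c‖ ^ (n - 1)) := by positivity
      constructor
      · rw [Function.iterate_succ_apply', Function.iterate_succ_apply']
        have h5 : f n c ((f n c)^[j] z) - f n c ((f n c)^[j] c)
            = ((f n c)^[j] z) ^ n - ((f n c)^[j] c) ^ n := by
          simp only [f]; ring
        rw [h5]
        calc _ ≤ Real.exp 1 * (n * ‖(f n c)^[j] c‖ ^ (n - 1)) * ‖(f n c)^[j] z - (f n c)^[j] c‖ :=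
              step_le hn hs
          _ ≤ Real.exp 1 * (n * ‖(f n c)^[j] c‖ ^ (n - 1)) * ρ j := by gcongr
          _ ≤ ρ (j + 1) := h2 j (by omega)
      · have h5 : deriv (f n c)^[j + 1] z
            = (n * ((f n c)^[j] z) ^ (n - 1)) * deriv (f n c)^[j] z := by
          rw [Function.iterate_succ']
          have h6 := (hasDerivAt_f n c ((f n c)^[j] z)).comp z (hdiff j z).hasDerivAt
          exact h6.deriv
        rw [h5, norm_mul, norm_mul, norm_pow]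
        simp only [Complex.norm_natCast]
        calc (n:ℝ) * ‖(f n c)^[j] z‖ ^ (n - 1) * ‖deriv (f n c)^[j] z‖ * ρ 0
            = ((n:ℝ) * ‖(f n c)^[j] z‖ ^ (n - 1)) * (‖deriv (f n c)^[j] z‖ * ρ 0) := by ring
          _ ≤ (Real.exp 1 * (n * ‖(f n c)^[j] c‖ ^ (n - 1))) * ρ j :=
              mul_le_mul (deriv_le hn hs) ih2 (by positivity) hE
          _ ≤ ρ (j + 1) := h2 j (by omega)
  have hb : ∀ z ∈ closedBall c (ρ 0), ‖(f n c)^[k] z‖ ≤ ‖(f n c)^[k] c‖ + ρ k := by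
    intro z hz
    calc ‖(f n c)^[k] z‖ = ‖(f n c)^[k] c + ((f n c)^[k] z - (f n c)^[k] c)‖ := by ring_nf
      _ ≤ _ := (norm_add_le _ _).trans (by gcongr; exact (key z hz k le_rfl).1)
  have hmaps : MapsTo (f n c)^[k + 1] (closedBall c (ρ 0)) (closedBall c (ρ 0)) := by
    intro z hz
    rw [mem_closedBall, dist_eq_norm, Function.iterate_succ_apply']
    have h5 : f n c ((f n c)^[k] z) - c = ((f n c)^[k] z) ^ n := by simp [f]
    rw [h5, norm_pow]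
    calc ‖(f n c)^[k] z‖ ^ n ≤ (‖(f n c)^[k] c‖ + ρ k) ^ n := by
          gcongr; exact hb z hz
      _ ≤ ρ 0 := h3
  have hder : ∀ z ∈ closedBall c (ρ 0), ‖deriv (f n c)^[k + 1] z‖ ≤ 1 / 2 := by
    intro z hz
    have h5 : deriv (f n c)^[k + 1] z
        = (n * ((f n c)^[k] z) ^ (n - 1)) * deriv (f n c)^[k] z := by
      rw [Function.iterate_succ']
      have h6 := (hasDerivAt_f n c ((f n c)^[k] z)).comp z (hdiff k z).hasDerivAt
      exact h6.deriv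
    rw [h5, norm_mul, norm_mul, norm_pow]
    simp only [Complex.norm_natCast]
    have h6 := (key z hz k le_rfl).2
    have h7 : (n:ℝ) * ‖(f n c)^[k] z‖ ^ (n - 1) * (‖deriv (f n c)^[k] z‖ * ρ 0) ≤ ρ 0 / 2 := by
      calc (n:ℝ) * ‖(f n c)^[k] z‖ ^ (n - 1) * (‖deriv (f n c)^[k] z‖ * ρ 0)
          ≤ (n:ℝ) * (‖(f n c)^[k] c‖ + ρ k) ^ (n - 1) * ρ k := by
            have hρk : 0 ≤ ρ k := le_trans (by positivity) h6
            refine mul_le_mul ?_ h6 (by positivity) (by positivity)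
            gcongr
            exact hb z hz
        _ = ρ k * (n * (‖(f n c)^[k] c‖ + ρ k) ^ (n - 1)) := by ring
        _ ≤ ρ 0 / 2 := h4
    have h8 : (n:ℝ) * ‖(f n c)^[k] z‖ ^ (n - 1) * ‖deriv (f n c)^[k] z‖ * ρ 0 ≤ 1 / 2 * ρ 0 := by
      linarith
    exact le_of_mul_le_mul_right h8 h0
  obtain ⟨z, -, hz1, hz2⟩ := fixed_of_contr h0.le (by norm_num) (by norm_num : (1:ℝ)/2 < 1)
    (hdiff (k + 1)) hmaps hder
  exact ⟨z, Nat.succ_pos k, hz1, hdiff (k + 1) z, hz2⟩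

/-- The orbit of the critical value divided by `c`, as a function of `v = c ^ (n - 1)`. -/
def W (n : ℕ) (v : ℂ) : ℕ → ℂ
  | 0 => 1
  | k + 1 => 1 + v * (W n v k) ^ n

theorem iter_eq {n : ℕ} (hn : 2 ≤ n) (c : ℂ) (k : ℕ) :
    (f n c)^[k] c = c * W n (c ^ (n - 1)) k := by
  induction k with
  | zero => simp [W]
  | succ k ih =>
    rw [Function.iterate_succ_apply', ih]
    simp only [f, W]
    have : c ^ n = c * c ^ (n - 1) := by
      conv_lhs => rw [show n = (n - 1) + 1 by omega]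
      rw [pow_succ]; ring
    rw [mul_pow, this]; ring

/-- The sizes `s = n |c|^(n-1)`, `a2 = |z_2/c|`, `a3 = |z_3/c|`, `a4 = |z_4/c|`. -/
noncomputable def sz (n : ℕ) (c : ℂ) : ℝ := n * ‖c‖ ^ (n - 1)
noncomputable def aa (n : ℕ) (c : ℂ) (k : ℕ) : ℝ := ‖W n (c ^ (n - 1)) k‖

theorem norm_iter {n : ℕ} (hn : 2 ≤ n) (c : ℂ) (k : ℕ) :
    ‖(f n c)^[k] c‖ = ‖c‖ * aa n c k := by
  rw [iter_eq hn, norm_mul]; rfl

theorem mult_eq {n : ℕ} (hn : 2 ≤ n) (c : ℂ) (k : ℕ) :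
    n * ‖(f n c)^[k] c‖ ^ (n - 1) = sz n c * aa n c k ^ (n - 1) := by
  rw [norm_iter hn, mul_pow, sz]; ring

theorem aa_zero (n : ℕ) (c : ℂ) : aa n c 0 = 1 := by simp [aa, W]

theorem aa_nonneg (n : ℕ) (c : ℂ) (k : ℕ) : 0 ≤ aa n c k := norm_nonneg _

/-- No attracting cycle of period at most 4. -/
def Att4 (n : ℕ) (c : ℂ) : Prop :=
  ∃ m z, (1 ≤ m ∧ m ≤ 4) ∧ IsAttractingCycle (fun z => z ^ n + c) m z

theorem att4_of_att2 {n : ℕ} {c : ℂ} (h : Att2 n c) : Att4 n c := by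
  obtain ⟨m, z, hm, hz⟩ := h
  exact ⟨m, z, by omega, hz⟩

/-- last step of the criterion -/
theorem last_step {n : ℕ} (hn : 2 ≤ n) {c : ℂ} {η a R : ℝ} (hη0 : 0 < η)
    (ha : 0 ≤ a) (hR : R ≤ ‖c‖ / n) (hR0 : 0 ≤ R)
    (h5 : sz n c * (a + 1 / n) ^ (n - 1) ≤ η / 4) (h6 : a + 1 / n ≤ 4) :
    (‖c‖ * a + R) ^ n ≤ ‖c‖ * η / n ∧ n * (‖c‖ * a + R) ^ (n - 1) ≤ η / 4 := by
  have hn' : (2:ℝ) ≤ n := by exact_mod_cast hn
  have hn0 : (0:ℝ) < n := by linarith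
  have h7 : ‖c‖ * a + R ≤ ‖c‖ * (a + 1 / n) := by
    have : ‖c‖ * (a + 1 / n) = ‖c‖ * a + ‖c‖ / n := by ring
    rw [this]; gcongr
  have h8 : n * (‖c‖ * a + R) ^ (n - 1) ≤ η / 4 := by
    calc n * (‖c‖ * a + R) ^ (n - 1) ≤ n * (‖c‖ * (a + 1 / n)) ^ (n - 1) := by gcongr
      _ = sz n c * (a + 1 / n) ^ (n - 1) := by rw [mul_pow, sz]; ring
      _ ≤ η / 4 := h5
  refine ⟨?_, h8⟩
  rw [le_div_iff₀ hn0]
  have h9 : (‖c‖ * a + R) ^ n = (‖c‖ * a + R) ^ (n - 1) * (‖c‖ * a + R) := by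
    conv_lhs => rw [show n = (n - 1) + 1 by omega]
    rw [pow_succ]
  have h10 : ‖c‖ * a + R ≤ ‖c‖ * 4 := h7.trans (by gcongr)
  calc (‖c‖ * a + R) ^ n * n = (n * (‖c‖ * a + R) ^ (n - 1)) * (‖c‖ * a + R) := by rw [h9]; ring
    _ ≤ (η / 4) * (‖c‖ * 4) := by gcongr
    _ = ‖c‖ * η := by ring

/-- period 3 -/
theorem P3 {n : ℕ} (hn : 2 ≤ n) {c : ℂ} (hc : c ≠ 0) {η : ℝ} (hη0 : 0 < η) (hη1 : η ≤ 1)
    (h1 : Real.exp 1 * sz n c * η ≤ aa n c 1)
    (h2 : Real.exp 1 * (sz n c * aa n c 1 ^ (n - 1)) * (Real.exp 1 * sz n c) * η ≤ 1)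
    (h5 : sz n c * (aa n c 2 + 1 / n) ^ (n - 1) ≤ η / 4) (h6 : aa n c 2 + 1 / n ≤ 4) :
    ∃ z, IsAttractingCycle (fun z => z ^ n + c) 3 z := by
  have hn' : (2:ℝ) ≤ n := by exact_mod_cast hn
  have hn0 : (0:ℝ) < n := by linarith
  have hx : 0 < ‖c‖ := norm_pos_iff.2 hc
  have hs : 0 ≤ sz n c := by unfold sz; positivity
  have ha1 := aa_nonneg n c 1
  have ha2 := aa_nonneg n c 2
  set x := ‖c‖ with hxd
  set s := sz n c with hsd
  set a1 := aa n c 1 with ha1d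
  set a2 := aa n c 2 with ha2d
  let ρ : ℕ → ℝ := fun j => match j with
    | 0 => x * η / n
    | 1 => Real.exp 1 * s * (x * η / n)
    | _ => Real.exp 1 * (s * a1 ^ (n - 1)) * (Real.exp 1 * s * (x * η / n))
  have hR : ρ 2 ≤ x / n := by
    show Real.exp 1 * (s * a1 ^ (n - 1)) * (Real.exp 1 * s * (x * η / n)) ≤ x / n
    calc Real.exp 1 * (s * a1 ^ (n - 1)) * (Real.exp 1 * s * (x * η / n))
        = (Real.exp 1 * (s * a1 ^ (n - 1)) * (Real.exp 1 * s) * η) * (x / n) := by ring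
      _ ≤ 1 * (x / n) := by gcongr
      _ = x / n := one_mul _
  have hR0 : 0 ≤ ρ 2 := by
    show 0 ≤ Real.exp 1 * (s * a1 ^ (n - 1)) * (Real.exp 1 * s * (x * η / n))
    positivity
  obtain ⟨l1, l2⟩ := last_step hn hη0 ha2 hR hR0 h5 h6
  refine crit (k := 2) (ρ := ρ) hn ?_ ?_ ?_ ?_ ?_
  · show 0 < x * η / n
    positivity
  · intro j hj
    rw [norm_iter hn]
    interval_cases j
    · show x * η / n ≤ ‖c‖ * aa n c 0 / n
      rw [aa_zero, ← hxd]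
      gcongr
    · show Real.exp 1 * s * (x * η / n) ≤ ‖c‖ * aa n c 1 / n
      rw [← hxd, ← ha1d]
      calc Real.exp 1 * s * (x * η / n) = (Real.exp 1 * s * η) * (x / n) := by ring
        _ ≤ a1 * (x / n) := by gcongr
        _ = _ := by ring
  · intro j hj
    rw [mult_eq hn]
    interval_cases j
    · rw [aa_zero]
      simp only [one_pow, mul_one]
      exact le_rfl
    · exact le_rfl
  · rw [norm_iter hn]
    exact l1
  · rw [norm_iter hn]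
    have : ρ 2 * (n * (‖c‖ * aa n c 2 + ρ 2) ^ (n - 1)) ≤ ρ 2 * (η / 4) := by gcongr
    refine this.trans ?_
    show Real.exp 1 * (s * a1 ^ (n - 1)) * (Real.exp 1 * s * (x * η / n)) * (η / 4)
      ≤ x * η / n / 2
    calc Real.exp 1 * (s * a1 ^ (n - 1)) * (Real.exp 1 * s * (x * η / n)) * (η / 4)
        = (Real.exp 1 * (s * a1 ^ (n - 1)) * (Real.exp 1 * s) * η) * (x * η / n / 4) := by ring
      _ ≤ 1 * (x * η / n / 4) := by gcongr
      _ ≤ x * η / n / 2 := by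
          have : 0 ≤ x * η / n := by positivity
          linarith

/-- period 4 -/
theorem P4 {n : ℕ} (hn : 2 ≤ n) {c : ℂ} (hc : c ≠ 0) {η : ℝ} (hη0 : 0 < η) (hη1 : η ≤ 1)
    (h1 : Real.exp 1 * sz n c * η ≤ aa n c 1)
    (h2 : Real.exp 1 * (sz n c * aa n c 1 ^ (n - 1)) * (Real.exp 1 * sz n c) * η ≤ aa n c 2)
    (h3 : Real.exp 1 * (sz n c * aa n c 2 ^ (n - 1)) *
      (Real.exp 1 * (sz n c * aa n c 1 ^ (n - 1)) * (Real.exp 1 * sz n c)) * η ≤ 1)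
    (h5 : sz n c * (aa n c 3 + 1 / n) ^ (n - 1) ≤ η / 4) (h6 : aa n c 3 + 1 / n ≤ 4) :
    ∃ z, IsAttractingCycle (fun z => z ^ n + c) 4 z := by
  have hn' : (2:ℝ) ≤ n := by exact_mod_cast hn
  have hn0 : (0:ℝ) < n := by linarith
  have hx : 0 < ‖c‖ := norm_pos_iff.2 hc
  have hs : 0 ≤ sz n c := by unfold sz; positivity
  have ha1 := aa_nonneg n c 1
  have ha2 := aa_nonneg n c 2
  have ha3 := aa_nonneg n c 3
  set x := ‖c‖ with hxd
  set s := sz n c with hsd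
  set a1 := aa n c 1 with ha1d
  set a2 := aa n c 2 with ha2d
  set a3 := aa n c 3 with ha3d
  let ρ : ℕ → ℝ := fun j => match j with
    | 0 => x * η / n
    | 1 => Real.exp 1 * s * (x * η / n)
    | 2 => Real.exp 1 * (s * a1 ^ (n - 1)) * (Real.exp 1 * s * (x * η / n))
    | _ => Real.exp 1 * (s * a2 ^ (n - 1)) *
        (Real.exp 1 * (s * a1 ^ (n - 1)) * (Real.exp 1 * s * (x * η / n)))
  have hR : ρ 3 ≤ x / n := by
    show Real.exp 1 * (s * a2 ^ (n - 1)) *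
        (Real.exp 1 * (s * a1 ^ (n - 1)) * (Real.exp 1 * s * (x * η / n))) ≤ x / n
    calc Real.exp 1 * (s * a2 ^ (n - 1)) *
        (Real.exp 1 * (s * a1 ^ (n - 1)) * (Real.exp 1 * s * (x * η / n)))
        = (Real.exp 1 * (s * a2 ^ (n - 1)) *
          (Real.exp 1 * (s * a1 ^ (n - 1)) * (Real.exp 1 * s)) * η) * (x / n) := by ring
      _ ≤ 1 * (x / n) := by gcongr
      _ = x / n := one_mul _
  have hR0 : 0 ≤ ρ 3 := by
    show 0 ≤ Real.exp 1 * (s * a2 ^ (n - 1)) *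
        (Real.exp 1 * (s * a1 ^ (n - 1)) * (Real.exp 1 * s * (x * η / n)))
    positivity
  obtain ⟨l1, l2⟩ := last_step hn hη0 ha3 hR hR0 h5 h6
  refine crit (k := 3) (ρ := ρ) hn ?_ ?_ ?_ ?_ ?_
  · show 0 < x * η / n
    positivity
  · intro j hj
    rw [norm_iter hn]
    interval_cases j
    · show x * η / n ≤ ‖c‖ * aa n c 0 / n
      rw [aa_zero, ← hxd]
      gcongr
    · show Real.exp 1 * s * (x * η / n) ≤ ‖c‖ * aa n c 1 / n
      rw [← hxd, ← ha1d]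
      calc Real.exp 1 * s * (x * η / n) = (Real.exp 1 * s * η) * (x / n) := by ring
        _ ≤ a1 * (x / n) := by gcongr
        _ = _ := by ring
    · show Real.exp 1 * (s * a1 ^ (n - 1)) * (Real.exp 1 * s * (x * η / n))
        ≤ ‖c‖ * aa n c 2 / n
      rw [← hxd, ← ha2d]
      calc Real.exp 1 * (s * a1 ^ (n - 1)) * (Real.exp 1 * s * (x * η / n))
          = (Real.exp 1 * (s * a1 ^ (n - 1)) * (Real.exp 1 * s) * η) * (x / n) := by ring
        _ ≤ a2 * (x / n) := by gcongr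
        _ = _ := by ring
  · intro j hj
    rw [mult_eq hn]
    interval_cases j
    · rw [aa_zero]
      simp only [one_pow, mul_one]
      exact le_rfl
    · exact le_rfl
    · exact le_rfl
  · rw [norm_iter hn]
    exact l1
  · rw [norm_iter hn]
    have : ρ 3 * (n * (‖c‖ * aa n c 3 + ρ 3) ^ (n - 1)) ≤ ρ 3 * (η / 4) := by gcongr
    refine this.trans ?_
    show Real.exp 1 * (s * a2 ^ (n - 1)) *
        (Real.exp 1 * (s * a1 ^ (n - 1)) * (Real.exp 1 * s * (x * η / n))) * (η / 4)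
      ≤ x * η / n / 2
    calc Real.exp 1 * (s * a2 ^ (n - 1)) *
        (Real.exp 1 * (s * a1 ^ (n - 1)) * (Real.exp 1 * s * (x * η / n))) * (η / 4)
        = (Real.exp 1 * (s * a2 ^ (n - 1)) *
          (Real.exp 1 * (s * a1 ^ (n - 1)) * (Real.exp 1 * s)) * η) * (x * η / n / 4) := by ring
      _ ≤ 1 * (x * η / n / 4) := by gcongr
      _ ≤ x * η / n / 2 := by
          have : 0 ≤ x * η / n := by positivity
          linarith

end Pool.Agent.TH937.LF
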