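import Pool.Agent.TH937.LF.Crit

/-!
# Lower bounds from the absence of attracting cycles, variation on small discs, Schwarz-Pick
-/

set_option autoImplicit false
open Complex Metric Set Filter Topology
open N62a1eb23
open Pool.Agent.H749R2.Hyp

namespace Pool.Agent.TH937.LF

theorem W_one (n : ℕ) (v : ℂ) : W n v 1 = 1 + v := by simp [W]
theorem W_two (n : ℕ) (v : ℂ) : W n v 2 = 1 + v * (1 + v) ^ n := by
  show 1 + v * (W n v 1) ^ n = _
  rw [W_one]
theorem W_three (n : ℕ) (v : ℂ) : W n v 3 = 1 + v * (1 + v * (1 + v) ^ n) ^ n := by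
  show 1 + v * (W n v 2) ^ n = _
  rw [W_two]

theorem norm_v (n : ℕ) (c : ℂ) : ‖c ^ (n - 1)‖ = ‖c‖ ^ (n - 1) := norm_pow _ _

/-- `D2 = s² a2^(n-1)`, `D3 = s³ (a2 a3)^(n-1)`. -/
noncomputable def D2 (n : ℕ) (c : ℂ) : ℝ := sz n c * (sz n c * aa n c 1 ^ (n - 1))
noncomputable def D3 (n : ℕ) (c : ℂ) : ℝ := D2 n c * (sz n c * aa n c 2 ^ (n - 1))

theorem sz_nonneg (n : ℕ) (c : ℂ) : 0 ≤ sz n c := by unfold sz; positivity
theorem D2_nonneg (n : ℕ) (c : ℂ) : 0 ≤ D2 n c := by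
  have := sz_nonneg n c; have := aa_nonneg n c 1; unfold D2; positivity
theorem D3_nonneg (n : ℕ) (c : ℂ) : 0 ≤ D3 n c := by
  have := sz_nonneg n c; have := aa_nonneg n c 2; have := D2_nonneg n c; unfold D3; positivity

theorem exp1_le : Real.exp 1 ≤ 2.72 := by
  have := Real.exp_one_lt_d9; linarith

theorem low_conv {n : ℕ} (hn : 10 ≤ n) {a P : ℝ} (ha : 0 ≤ a) (hP0 : 0 < P)
    (hP : P * (3 / 5) ^ (n - 1) < 1) (h : 1 < P * (a + 1 / n) ^ (n - 1)) :
    1 / 2 ≤ a ∧ 1 < 8 * P * a ^ (n - 1) := by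
  have hn' : (10:ℝ) ≤ n := by exact_mod_cast hn
  have hn0 : (0:ℝ) < n := by linarith
  have h1 : (1:ℝ) / n ≤ 1 / 10 := by gcongr
  have h2 : 1 / 2 ≤ a := by
    by_contra hcon
    push Not at hcon
    have : P * (a + 1 / n) ^ (n - 1) ≤ P * (3 / 5) ^ (n - 1) := by
      gcongr
      linarith
    linarith
  refine ⟨h2, ?_⟩
  have h3 : (a + 1 / n) ^ (n - 1) ≤ 8 * a ^ (n - 1) := by
    calc (a + 1 / n) ^ (n - 1) ≤ (a * (1 + 2 / n)) ^ (n - 1) := by
          gcongr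
          have : (1:ℝ) / n ≤ a * (2 / n) := by
            calc (1:ℝ) / n = 1 / 2 * (2 / n) := by ring
              _ ≤ a * (2 / n) := by gcongr
          linarith
      _ = a ^ (n - 1) * (1 + 2 / n) ^ (n - 1) := mul_pow _ _ _
      _ ≤ a ^ (n - 1) * Real.exp 2 := by
          gcongr
          exact one_add_div_pow_le (n := n) (θ := 2) (by omega) (by norm_num) (by omega)
      _ ≤ a ^ (n - 1) * 8 := by
          gcongr
          have h4 : Real.exp 2 = (Real.exp 1) ^ 2 := by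
            rw [← Real.exp_nat_mul]; norm_num
          rw [h4]
          have := exp1_le
          calc (Real.exp 1) ^ 2 ≤ 2.72 ^ 2 := by gcongr
            _ ≤ 8 := by norm_num
      _ = _ := by ring
  calc 1 < P * (a + 1 / n) ^ (n - 1) := h
    _ ≤ P * (8 * a ^ (n - 1)) := by gcongr
    _ = _ := by ring

theorem four_of_pow {n : ℕ} (hn : 10 ≤ n) {b : ℝ} (h : b ^ (n - 1) ≤ 1) : b ≤ 4 := by
  by_contra hcon
  push Not at hcon
  have : (1:ℝ) < b ^ (n - 1) := one_lt_pow₀ (by linarith) (by omega)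
  linarith

theorem low3 {n : ℕ} (hn : 10 ≤ n) {c : ℂ} (hno : ¬ Att4 n c) (hs : 1 ≤ sz n c)
    (ha : 1 / 2 ≤ aa n c 1)
    (hP : 60 * (sz n c * (sz n c + D2 n c)) * (3 / 5) ^ (n - 1) < 1) :
    1 / 2 ≤ aa n c 2 ∧ 1 < 8 * (60 * (sz n c * (sz n c + D2 n c))) * aa n c 2 ^ (n - 1) := by
  have hD := D2_nonneg n c
  have he := exp1_le
  have he0 := Real.exp_pos 1
  have hc : c ≠ 0 := by
    rintro rfl
    rw [sz, norm_zero, zero_pow (by omega), mul_zero] at hs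
    linarith
  have ha2 := aa_nonneg n c 2
  set s := sz n c with hsd
  set D := D2 n c with hDd
  have hDeq : D = s * (s * aa n c 1 ^ (n - 1)) := rfl
  have hn' : (10:ℝ) ≤ n := by exact_mod_cast hn
  have hn0 : (0:ℝ) < n := by linarith
  refine low_conv hn ha2 (by positivity) hP ?_
  by_contra hcon
  push Not at hcon
  set η : ℝ := 1 / (15 * (s + D)) with hη
  have hsD : 0 < s + D := by linarith
  have hη0 : 0 < η := by positivity
  have hηm : η * (15 * (s + D)) = 1 := by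
    rw [hη]; field_simp
  have hη1 : η ≤ 1 := by
    rw [hη, div_le_one (by positivity)]; linarith
  have h5 : s * (aa n c 2 + 1 / n) ^ (n - 1) ≤ η / 4 := by
    have h7 : s * (aa n c 2 + 1 / n) ^ (n - 1) * (60 * (s + D)) ≤ η / 4 * (60 * (s + D)) := by
      calc s * (aa n c 2 + 1 / n) ^ (n - 1) * (60 * (s + D))
          = 60 * (s * (s + D)) * (aa n c 2 + 1 / n) ^ (n - 1) := by ring
        _ ≤ 1 := hcon
        _ = η / 4 * (60 * (s + D)) := by linarith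
    exact le_of_mul_le_mul_right h7 (by positivity)
  have h6 : aa n c 2 + 1 / n ≤ 4 := by
    refine four_of_pow hn ?_
    have : (aa n c 2 + 1 / n) ^ (n - 1) ≤ s * (aa n c 2 + 1 / n) ^ (n - 1) := by
      have : 0 ≤ (aa n c 2 + 1 / n) ^ (n - 1) := by positivity
      nlinarith
    linarith
  obtain ⟨z, hz⟩ := P3 (n := n) (by omega) hc hη0 hη1 (by
      have h7 : Real.exp 1 * s * η ≤ 2.72 * (s + D) * η := by gcongr; linarith
      linarith) (by
      have h7 : Real.exp 1 * (s * aa n c 1 ^ (n - 1)) * (Real.exp 1 * s) * η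
          = (Real.exp 1) ^ 2 * D * η := by rw [hDeq]; ring
      show Real.exp 1 * (s * aa n c 1 ^ (n - 1)) * (Real.exp 1 * s) * η ≤ 1
      rw [h7]
      have h8 : (Real.exp 1) ^ 2 * D * η ≤ 2.72 ^ 2 * (s + D) * η := by gcongr; linarith
      nlinarith) h5 h6
  exact hno ⟨3, z, by omega, hz⟩

theorem low4 {n : ℕ} (hn : 10 ≤ n) {c : ℂ} (hno : ¬ Att4 n c) (hs : 1 ≤ sz n c)
    (ha : 1 / 2 ≤ aa n c 1) (hb : 1 / 2 ≤ aa n c 2)
    (hP : 200 * (sz n c * (sz n c + D2 n c + D3 n c)) * (3 / 5) ^ (n - 1) < 1) :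
    1 / 2 ≤ aa n c 3 ∧
      1 < 8 * (200 * (sz n c * (sz n c + D2 n c + D3 n c))) * aa n c 3 ^ (n - 1) := by
  have hD := D2_nonneg n c
  have hD3 := D3_nonneg n c
  have he := exp1_le
  have he0 := Real.exp_pos 1
  have hc : c ≠ 0 := by
    rintro rfl
    rw [sz, norm_zero, zero_pow (by omega), mul_zero] at hs
    linarith
  have ha3 := aa_nonneg n c 3
  set s := sz n c with hsd
  set D := D2 n c with hDd
  set E := D3 n c with hEd
  have hDeq : D = s * (s * aa n c 1 ^ (n - 1)) := rfl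
  have hEeq : E = D * (s * aa n c 2 ^ (n - 1)) := rfl
  have hn' : (10:ℝ) ≤ n := by exact_mod_cast hn
  have hn0 : (0:ℝ) < n := by linarith
  refine low_conv hn ha3 (by positivity) hP ?_
  by_contra hcon
  push Not at hcon
  set η : ℝ := 1 / (50 * (s + D + E)) with hη
  have hsD : 0 < s + D + E := by linarith
  have hη0 : 0 < η := by positivity
  have hηm : η * (50 * (s + D + E)) = 1 := by
    rw [hη]; field_simp
  have hη1 : η ≤ 1 := by
    rw [hη, div_le_one (by positivity)]; linarith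
  have h5 : s * (aa n c 3 + 1 / n) ^ (n - 1) ≤ η / 4 := by
    have h7 : s * (aa n c 3 + 1 / n) ^ (n - 1) * (200 * (s + D + E))
        ≤ η / 4 * (200 * (s + D + E)) := by
      calc s * (aa n c 3 + 1 / n) ^ (n - 1) * (200 * (s + D + E))
          = 200 * (s * (s + D + E)) * (aa n c 3 + 1 / n) ^ (n - 1) := by ring
        _ ≤ 1 := hcon
        _ = η / 4 * (200 * (s + D + E)) := by linarith
    exact le_of_mul_le_mul_right h7 (by positivity)
  have h6 : aa n c 3 + 1 / n ≤ 4 := by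
    refine four_of_pow hn ?_
    have : (aa n c 3 + 1 / n) ^ (n - 1) ≤ s * (aa n c 3 + 1 / n) ^ (n - 1) := by
      have : 0 ≤ (aa n c 3 + 1 / n) ^ (n - 1) := by positivity
      nlinarith
    linarith
  obtain ⟨z, hz⟩ := P4 (n := n) (by omega) hc hη0 hη1 (by
      have h7 : Real.exp 1 * s * η ≤ 2.72 * (s + D + E) * η := by gcongr; linarith
      linarith) (by
      have h7 : Real.exp 1 * (s * aa n c 1 ^ (n - 1)) * (Real.exp 1 * s) * η
          = (Real.exp 1) ^ 2 * D * η := by rw [hDeq]; ring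
      show Real.exp 1 * (s * aa n c 1 ^ (n - 1)) * (Real.exp 1 * s) * η ≤ aa n c 2
      rw [h7]
      have h8 : (Real.exp 1) ^ 2 * D * η ≤ 2.72 ^ 2 * (s + D + E) * η := by gcongr; linarith
      nlinarith) (by
      have h7 : Real.exp 1 * (s * aa n c 2 ^ (n - 1)) *
          (Real.exp 1 * (s * aa n c 1 ^ (n - 1)) * (Real.exp 1 * s)) * η
          = (Real.exp 1) ^ 3 * E * η := by rw [hEeq, hDeq]; ring
      show Real.exp 1 * (s * aa n c 2 ^ (n - 1)) *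
          (Real.exp 1 * (s * aa n c 1 ^ (n - 1)) * (Real.exp 1 * s)) * η ≤ 1
      rw [h7]
      have h8 : (Real.exp 1) ^ 3 * E * η ≤ 2.72 ^ 3 * (s + D + E) * η := by gcongr; linarith
      nlinarith) h5 h6
  exact hno ⟨4, z, by omega, hz⟩

/-- variation of `v = c^(n-1)` -/
theorem vdiff {n : ℕ} (hn : 2 ≤ n) {c c0 : ℂ} {θ : ℝ} (hθ0 : 0 ≤ θ) (hθ : θ ≤ 1)
    (h : n * ‖c - c0‖ ≤ ‖c0‖ * θ) :
    ‖c ^ (n - 1) - c0 ^ (n - 1)‖ ≤ 2 * θ * ‖c0‖ ^ (n - 1) := by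
  have hn' : (2:ℝ) ≤ n := by exact_mod_cast hn
  have hn0 : (0:ℝ) < n := by linarith
  have h1 := pow_sub_pow_le c0 (c - c0) (n - 1)
  rw [add_sub_cancel] at h1
  refine h1.trans ?_
  have h2 : (‖c0‖ + ‖c - c0‖) ^ (n - 1) ≤ ‖c0‖ ^ (n - 1) * (1 + 2 * θ) := by
    calc (‖c0‖ + ‖c - c0‖) ^ (n - 1) ≤ (‖c0‖ * (1 + θ / n)) ^ (n - 1) := by
          gcongr
          have h3 : ‖c - c0‖ ≤ ‖c0‖ * θ / n := by
            rw [le_div_iff₀ hn0]; linarith [mul_comm (n:ℝ) ‖c - c0‖]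
          calc ‖c0‖ + ‖c - c0‖ ≤ ‖c0‖ + ‖c0‖ * θ / n := by gcongr
            _ = _ := by ring
      _ = ‖c0‖ ^ (n - 1) * (1 + θ / n) ^ (n - 1) := mul_pow _ _ _
      _ ≤ ‖c0‖ ^ (n - 1) * Real.exp θ := by
          gcongr
          exact one_add_div_pow_le (by omega) hθ0 (by omega)
      _ ≤ ‖c0‖ ^ (n - 1) * (1 + 2 * θ) := by
          gcongr
          have := Real.abs_exp_sub_one_le (x := θ) (by rw [abs_of_nonneg hθ0]; exact hθ)
          rw [abs_of_nonneg hθ0] at this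
          have h5 := le_abs_self (Real.exp θ - 1)
          linarith
  nlinarith

theorem prod_sub_one_le (x y : ℂ) (n : ℕ) :
    ‖(1 + x) * (1 + y) ^ n - 1‖ ≤ Real.exp (‖x‖ + n * ‖y‖) - 1 := by
  have h1 := pow_sub_pow_le 1 y n
  simp only [one_pow, norm_one] at h1
  have h2 : ‖(1 + y) ^ n‖ ≤ (1 + ‖y‖) ^ n := by
    rw [norm_pow]
    gcongr
    refine (norm_add_le _ _).trans ?_
    rw [norm_one]
  have h3 : (1 + ‖y‖) ^ n ≤ Real.exp (n * ‖y‖) := by
    have h4 : 1 + ‖y‖ ≤ Real.exp ‖y‖ := by have := Real.add_one_le_exp ‖y‖; linarith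
    calc (1 + ‖y‖) ^ n ≤ (Real.exp ‖y‖) ^ n := by gcongr
      _ = Real.exp (n * ‖y‖) := by rw [← Real.exp_nat_mul]
  have h5 : 1 + ‖x‖ ≤ Real.exp ‖x‖ := by have := Real.add_one_le_exp ‖x‖; linarith
  calc ‖(1 + x) * (1 + y) ^ n - 1‖ = ‖((1 + y) ^ n - 1) + x * (1 + y) ^ n‖ := by ring_nf
    _ ≤ ‖(1 + y) ^ n - 1‖ + ‖x‖ * ‖(1 + y) ^ n‖ := by
        refine (norm_add_le _ _).trans ?_
        rw [norm_mul]
    _ ≤ ((1 + ‖y‖) ^ n - 1) + ‖x‖ * (1 + ‖y‖) ^ n := by gcongr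
    _ = (1 + ‖x‖) * (1 + ‖y‖) ^ n - 1 := by ring
    _ ≤ Real.exp ‖x‖ * Real.exp (n * ‖y‖) - 1 := by gcongr
    _ = _ := by rw [← Real.exp_add]

/-- growth of a power under a small relative perturbation -/
theorem pow_perturb {n : ℕ} (hn : 2 ≤ n) {a b A q : ℝ} (ha : 0 ≤ a) (hA : 0 ≤ A) (hq : 0 < q)
    (hqb : q ≤ b) (h : a ≤ b + A / n) :
    a ^ (n - 1) ≤ b ^ (n - 1) * Real.exp (A / q) := by
  have hn' : (2:ℝ) ≤ n := by exact_mod_cast hn
  have hn0 : (0:ℝ) < n := by linarith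
  have hb : 0 < b := by linarith
  calc a ^ (n - 1) ≤ (b * (1 + A / q / n)) ^ (n - 1) := by
        gcongr
        refine h.trans ?_
        have : A / n ≤ b * (A / q / n) := by
          have h1 : A ≤ b * (A / q) := by
            rw [mul_div_assoc', le_div_iff₀ hq]
            nlinarith
          calc A / n ≤ b * (A / q) / n := by gcongr
            _ = _ := by ring
        linarith
    _ = b ^ (n - 1) * (1 + A / q / n) ^ (n - 1) := mul_pow _ _ _
    _ ≤ b ^ (n - 1) * Real.exp (A / q) := by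
        gcongr
        exact one_add_div_pow_le (by omega) (by positivity) (by omega)

/-- first ball lemma -/
theorem ball1 {n : ℕ} (hn : 2 ≤ n) {c c0 : ℂ} {θ A : ℝ} (hθ0 : 0 ≤ θ) (hθ : θ ≤ 1 / 4)
    (hA : θ * sz n c0 ≤ A) (hnA : 8 * A ≤ n)
    (h : n * ‖c - c0‖ ≤ ‖c0‖ * θ) (ha : 3 / 4 ≤ aa n c0 1) :
    sz n c ≤ 2 * sz n c0 ∧ sz n c0 / 2 ≤ sz n c ∧ 1 / 2 ≤ aa n c 1 ∧
      aa n c 1 ^ (n - 1) ≤ aa n c0 1 ^ (n - 1) * Real.exp (3 * A) ∧
      D2 n c ≤ 4 * Real.exp (3 * A) * D2 n c0 := by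
  have hn' : (2:ℝ) ≤ n := by exact_mod_cast hn
  have hn0 : (0:ℝ) < n := by linarith
  have hv := vdiff hn hθ0 (by linarith) h
  have hs0 := sz_nonneg n c0
  have hA0 : 0 ≤ A := le_trans (by positivity) hA
  have hd : ‖c ^ (n - 1) - c0 ^ (n - 1)‖ ≤ 2 * A / n := by
    rw [le_div_iff₀ hn0]
    calc ‖c ^ (n - 1) - c0 ^ (n - 1)‖ * n ≤ (2 * θ * ‖c0‖ ^ (n - 1)) * n := by gcongr
      _ = 2 * (θ * sz n c0) := by rw [sz]; ring
      _ ≤ 2 * A := by linarith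
  have h1 : |‖c‖ ^ (n - 1) - ‖c0‖ ^ (n - 1)| ≤ 2 * θ * ‖c0‖ ^ (n - 1) := by
    have := abs_norm_sub_norm_le (c ^ (n - 1)) (c0 ^ (n - 1))
    rw [norm_pow, norm_pow] at this
    exact this.trans hv
  have ht0 : 0 ≤ ‖c0‖ ^ (n - 1) := by positivity
  have h2 := abs_le.1 h1
  have hs1 : sz n c ≤ 2 * sz n c0 := by
    unfold sz
    have : ‖c‖ ^ (n - 1) ≤ 2 * ‖c0‖ ^ (n - 1) := by nlinarith
    nlinarith
  have hs2 : sz n c0 / 2 ≤ sz n c := by
    unfold sz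
    have : ‖c0‖ ^ (n - 1) / 2 ≤ ‖c‖ ^ (n - 1) := by nlinarith
    nlinarith
  have h3 : |aa n c 1 - aa n c0 1| ≤ 2 * A / n := by
    unfold aa
    rw [W_one, W_one]
    refine (abs_norm_sub_norm_le _ _).trans ?_
    have : (1 + c ^ (n - 1)) - (1 + c0 ^ (n - 1)) = c ^ (n - 1) - c0 ^ (n - 1) := by ring
    rw [this]; exact hd
  have h4 := abs_le.1 h3
  have h5 : 2 * A / n ≤ 1 / 4 := by
    rw [div_le_div_iff₀ hn0 (by norm_num)]; linarith
  have ha1 := aa_nonneg n c 1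
  have h6 : aa n c 1 ^ (n - 1) ≤ aa n c0 1 ^ (n - 1) * Real.exp (3 * A) := by
    have h7 := pow_perturb (n := n) hn (a := aa n c 1) (b := aa n c0 1) (A := 2 * A) (q := 3 / 4)
      ha1 (by positivity) (by norm_num) ha (by linarith)
    refine h7.trans ?_
    have h8 : 0 ≤ aa n c0 1 := aa_nonneg _ _ _
    gcongr
    linarith
  refine ⟨hs1, hs2, by linarith, h6, ?_⟩
  unfold D2
  have h8 : 0 ≤ aa n c0 1 := aa_nonneg _ _ _
  have h9 := sz_nonneg n c
  calc sz n c * (sz n c * aa n c 1 ^ (n - 1))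
      ≤ (2 * sz n c0) * ((2 * sz n c0) * (aa n c0 1 ^ (n - 1) * Real.exp (3 * A))) := by gcongr
    _ = _ := by ring

/-- second ball lemma -/
theorem ball2 {n : ℕ} (hn : 2 ≤ n) {c c0 : ℂ} {θ A B : ℝ} (hθ0 : 0 ≤ θ) (hθ : θ ≤ 1 / 4)
    (hA : θ * sz n c0 ≤ A) (hB : θ * D2 n c0 ≤ B) (hnA : 8 * A ≤ n) (hs : 1 ≤ sz n c0)
    (h : n * ‖c - c0‖ ≤ ‖c0‖ * θ) (ha : 3 / 4 ≤ aa n c0 1) (ha3 : aa n c0 1 ≤ 3)
    (hb : 1 / 2 ≤ aa n c0 2) :
    D3 n c ≤ 8 * Real.exp (3 * A) * Real.exp (2 * (15 * B * Real.exp (5 * A))) * D3 n c0 := by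
  have hn' : (2:ℝ) ≤ n := by exact_mod_cast hn
  have hn0 : (0:ℝ) < n := by linarith
  obtain ⟨b1, -, -, -, b5⟩ := ball1 hn hθ0 hθ hA hnA h ha
  have hv := vdiff hn hθ0 (by linarith) h
  have hs0 := sz_nonneg n c0
  have hA0 : 0 ≤ A := le_trans (by positivity) hA
  have hD0 := D2_nonneg n c0
  have hB0 : 0 ≤ B := le_trans (by positivity) hB
  set v := c ^ (n - 1) with hvd
  set v0 := c0 ^ (n - 1) with hv0d
  have hnv0 : ‖v0‖ = ‖c0‖ ^ (n - 1) := norm_pow _ _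
  have hsz : sz n c0 = n * ‖v0‖ := by rw [hnv0, sz]
  have hv0ne : v0 ≠ 0 := by
    intro h0
    rw [hsz, h0, norm_zero, mul_zero] at hs
    linarith
  have ha1n : aa n c0 1 = ‖1 + v0‖ := by unfold aa; rw [W_one]
  have hζne : (1 + v0) ≠ 0 := by
    intro h0
    rw [ha1n, h0, norm_zero] at ha
    linarith
  have hvpos : 0 < ‖v0‖ := norm_pos_iff.2 hv0ne
  have hx : ‖(v - v0) / v0‖ ≤ 2 * θ := by
    rw [norm_div, div_le_iff₀ hvpos, hnv0]
    linarith
  have hy : n * ‖(v - v0) / (1 + v0)‖ ≤ 3 * A := by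
    rw [norm_div, ← ha1n]
    have h1 : ‖v - v0‖ / aa n c0 1 ≤ (2 * θ * ‖v0‖) / (3 / 4) := by
      rw [hnv0]
      gcongr
    calc n * (‖v - v0‖ / aa n c0 1) ≤ n * ((2 * θ * ‖v0‖) / (3 / 4)) := by gcongr
      _ = 8 / 3 * (θ * sz n c0) := by rw [hsz]; ring
      _ ≤ 8 / 3 * A := by gcongr
      _ ≤ 3 * A := by linarith
  have hy2 : n * ‖(v - v0) / (1 + v0)‖ ≤ 3 * (θ * sz n c0) := by
    rw [norm_div, ← ha1n]
    have h1 : ‖v - v0‖ / aa n c0 1 ≤ (2 * θ * ‖v0‖) / (3 / 4) := by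
      rw [hnv0]
      gcongr
    calc n * (‖v - v0‖ / aa n c0 1) ≤ n * ((2 * θ * ‖v0‖) / (3 / 4)) := by gcongr
      _ = 8 / 3 * (θ * sz n c0) := by rw [hsz]; ring
      _ ≤ 3 * (θ * sz n c0) := by
        have : 0 ≤ θ * sz n c0 := by positivity
        linarith
  have hsum : ‖(v - v0) / v0‖ + n * ‖(v - v0) / (1 + v0)‖ ≤ 5 * (θ * sz n c0) := by
    have : θ ≤ θ * sz n c0 := by nlinarith
    linarith
  have hprod := prod_sub_one_le ((v - v0) / v0) ((v - v0) / (1 + v0)) n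
  have hident : v * (1 + v) ^ n - v0 * (1 + v0) ^ n
      = v0 * (1 + v0) ^ n * ((1 + (v - v0) / v0) * (1 + (v - v0) / (1 + v0)) ^ n - 1) := by
    have h1 : 1 + (v - v0) / v0 = v / v0 := by field_simp; ring
    have h2 : 1 + (v - v0) / (1 + v0) = (1 + v) / (1 + v0) := by field_simp; ring
    rw [h1, h2, div_pow]
    field_simp
  have hW : ‖W n v 2 - W n v0 2‖ ≤ 15 * B * Real.exp (5 * A) / n := by
    rw [W_two, W_two]
    have h1 : (1 + v * (1 + v) ^ n) - (1 + v0 * (1 + v0) ^ n)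
        = v * (1 + v) ^ n - v0 * (1 + v0) ^ n := by ring
    rw [h1, hident, norm_mul, norm_mul, norm_pow (1 + v0) n, ← ha1n]
    set E0 := ‖(v - v0) / v0‖ + n * ‖(v - v0) / (1 + v0)‖ with hE0
    have hE00 : 0 ≤ E0 := by positivity
    have h2 : Real.exp E0 - 1 ≤ E0 * Real.exp E0 := by
      have h3 : 1 - E0 ≤ Real.exp (-E0) := by have := Real.add_one_le_exp (-E0); linarith
      have h4 : (1 - E0) * Real.exp E0 ≤ Real.exp (-E0) * Real.exp E0 := by gcongr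
      rw [← Real.exp_add] at h4
      simp at h4
      linarith
    have h3 : Real.exp E0 - 1 ≤ 5 * (θ * sz n c0) * Real.exp (5 * A) := by
      refine h2.trans ?_
      have h5 : E0 ≤ 5 * A := by linarith
      gcongr
    have h4 : ‖v0‖ * aa n c0 1 ^ n * (Real.exp E0 - 1)
        ≤ ‖v0‖ * aa n c0 1 ^ n * (5 * (θ * sz n c0) * Real.exp (5 * A)) := by
      have := aa_nonneg n c0 1
      gcongr
    have h5 : ‖v0‖ * aa n c0 1 ^ n * ‖(1 + (v - v0) / v0) * (1 + (v - v0) / (1 + v0)) ^ n - 1‖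
        ≤ ‖v0‖ * aa n c0 1 ^ n * (Real.exp E0 - 1) := by
      have := aa_nonneg n c0 1
      gcongr
    refine (h5.trans h4).trans ?_
    rw [le_div_iff₀ hn0]
    have h6 : aa n c0 1 ^ n = aa n c0 1 ^ (n - 1) * aa n c0 1 := by
      generalize aa n c0 1 = q
      conv_lhs => rw [show n = (n - 1) + 1 by omega]
      rw [pow_succ]
    have h7 : ‖v0‖ * aa n c0 1 ^ n * (5 * (θ * sz n c0) * Real.exp (5 * A)) * n
        = 5 * aa n c0 1 * (θ * D2 n c0) * Real.exp (5 * A) := by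
      rw [h6, D2, hsz]; ring
    rw [h7]
    have h8 := aa_nonneg n c0 1
    calc 5 * aa n c0 1 * (θ * D2 n c0) * Real.exp (5 * A)
        ≤ 5 * 3 * B * Real.exp (5 * A) := by gcongr
      _ = _ := by ring
  have haa : aa n c 2 ≤ aa n c0 2 + 15 * B * Real.exp (5 * A) / n := by
    unfold aa
    have h1 := norm_sub_norm_le (W n v 2) (W n v0 2)
    show ‖W n v 2‖ ≤ ‖W n v0 2‖ + _
    linarith
  have hp := pow_perturb (n := n) hn (a := aa n c 2) (b := aa n c0 2)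
    (A := 15 * B * Real.exp (5 * A)) (q := 1 / 2) (aa_nonneg _ _ _) (by positivity)
    (by norm_num) hb haa
  unfold D3
  have h8 := aa_nonneg n c0 2
  have h9 := sz_nonneg n c
  have h10 := aa_nonneg n c 2
  have h11 := D2_nonneg n c
  calc D2 n c * (sz n c * aa n c 2 ^ (n - 1))
      ≤ (4 * Real.exp (3 * A) * D2 n c0) *
        ((2 * sz n c0) * (aa n c0 2 ^ (n - 1) * Real.exp (15 * B * Real.exp (5 * A) / (1 / 2)))) := by
        gcongr
    _ = 8 * Real.exp (3 * A) * Real.exp (15 * B * Real.exp (5 * A) / (1 / 2)) *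
        (D2 n c0 * (sz n c0 * aa n c0 2 ^ (n - 1))) := by ring
    _ = _ := by
        congr 3
        ring_nf

end Pool.Agent.TH937.LF
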