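import Pool.Agent.TH937.LF.SP

/-!
# Density of attracting cycles of period at most 4 without logarithms
-/

set_option autoImplicit false
open Complex Metric Set Filter Topology
open N62a1eb23
open Pool.Agent.H749R2.Hyp

namespace Pool.Agent.TH937.LF

/-- the constant from the ball lemmas -/
noncomputable def KK (a : ℝ) : ℝ :=
  Real.exp (3 * (2 * a)) * Real.exp (2 * (15 * (2 * a) * Real.exp (5 * (2 * a))))

theorem KK_pos (a : ℝ) : 0 < KK a := by unfold KK; positivity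

theorem exp_le_KK {a : ℝ} (ha : 0 ≤ a) : Real.exp (3 * (2 * a)) ≤ KK a := by
  unfold KK
  have h1 : (1:ℝ) ≤ Real.exp (2 * (15 * (2 * a) * Real.exp (5 * (2 * a)))) :=
    Real.one_le_exp (by positivity)
  have := Real.exp_pos (3 * (2 * a))
  nlinarith

theorem one_le_KK {a : ℝ} (ha : 0 ≤ a) : 1 ≤ KK a :=
  (Real.one_le_exp (by positivity)).trans (exp_le_KK ha)

/-- all facts about the centre -/
structure Base (a : ℝ) (n : ℕ) (c : ℂ) : Prop where
  ha : 48000 ≤ a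
  hn : 64 ≤ n
  hN : 70000 * KK a * (n:ℝ) ^ 4 * (3 / 4) ^ (n - 1) < 1
  hA : 8 * (2 * a) ≤ n
  hs : 8 * a ≤ sz n c
  hx1 : 1 / 2 ≤ ‖c‖
  hx2 : ‖c‖ ≤ 2
  hs2 : sz n c ≤ 2 * n
  h1 : 3 / 4 ≤ aa n c 1
  h1' : aa n c 1 ≤ 3
  h1'' : sz n c * aa n c 1 ^ (n - 1) ≤ 2 * n
  h2' : aa n c 2 ≤ 7
  h2'' : sz n c * aa n c 2 ^ (n - 1) ≤ 2 * n
  h3' : aa n c 3 ≤ 15
  hD2 : D2 n c ≤ 4 * (n:ℝ) ^ 2
  hD3 : D3 n c ≤ 8 * (n:ℝ) ^ 3

theorem pow_split {n : ℕ} (hn : 1 ≤ n) (q : ℝ) : q ^ n = q ^ (n - 1) * q := by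
  conv_lhs => rw [show n = (n - 1) + 1 by omega]
  rw [pow_succ]

theorem base_of {a : ℝ} {n : ℕ} {c : ℂ} (ha : 48000 ≤ a) (hn : 64 ≤ n)
    (hN : 70000 * KK a * (n:ℝ) ^ 4 * (3 / 4) ^ (n - 1) < 1) (hA : 8 * (2 * a) ≤ n)
    (hs : 8 * a ≤ sz n c) (hc : c ∈ multibrotSet n) (hno : ¬ Att4 n c) : Base a n c := by
  have hn' : (64:ℝ) ≤ n := by exact_mod_cast hn
  have hn0 : (0:ℝ) < n := by linarith
  have hK := one_le_KK (a := a) (by linarith)
  have ht := t_le_two (n := n) (by omega) hc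
  have hz2 := z2_le (n := n) (by omega) hc
  have hz3 := z3_le (n := n) (by omega) hc
  have hx2 := x_le_two (n := n) (by omega) hc
  have ha1 : aa n c 1 = ‖1 + c ^ (n - 1)‖ := by unfold aa; rw [W_one]
  have hs2 : sz n c ≤ 2 * n := by unfold sz; nlinarith
  have hx1 : 1 / 2 ≤ ‖c‖ := by
    by_contra hcon
    push Not at hcon
    have h1 : ‖c‖ ^ (n - 1) ≤ (1 / 2) ^ (n - 1) := by
      gcongr
    have h2 : (n:ℝ) * (1 / 2) ^ (n - 1) ≤ n * (3 / 4) ^ (n - 1) :=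
      mul_le_mul_of_nonneg_left (pow_le_pow_left₀ (by norm_num) (by norm_num) _) hn0.le
    have h3 : (n:ℝ) * (3 / 4) ^ (n - 1) ≤ 70000 * KK a * (n:ℝ) ^ 4 * (3 / 4) ^ (n - 1) := by
      have h4 : (n:ℝ) ≤ 70000 * KK a * (n:ℝ) ^ 4 := by
        calc (n:ℝ) = 1 * 1 * (n:ℝ) ^ 1 := by ring
          _ ≤ 70000 * KK a * (n:ℝ) ^ 4 := by
            gcongr
            · norm_num
            · linarith
            · norm_num
      gcongr
    have h5 : sz n c ≤ n * (1 / 2) ^ (n - 1) := by unfold sz; gcongr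
    linarith
  have hlow2 := low2 hn (fun h => hno (att4_of_att2 h))
  have h1 : 3 / 4 ≤ aa n c 1 := by
    by_contra hcon
    push Not at hcon
    have h2 : ‖1 + c ^ (n - 1)‖ ^ (n - 1) ≤ (3 / 4) ^ (n - 1) := by
      rw [← ha1]
      have := aa_nonneg n c 1
      gcongr
    have h3 : ((n:ℝ) * ‖c‖ ^ (n - 1)) ^ 2 ≤ (2 * n) ^ 2 := by
      have := sz_nonneg n c
      have h4 : (n:ℝ) * ‖c‖ ^ (n - 1) ≤ 2 * n := hs2
      gcongr
    have h5 : ((n:ℝ) * ‖c‖ ^ (n - 1)) ^ 2 * ‖1 + c ^ (n - 1)‖ ^ (n - 1)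
        ≤ (2 * n) ^ 2 * (3 / 4) ^ (n - 1) := by gcongr
    have h6 : 440 * ((2 * (n:ℝ)) ^ 2 * (3 / 4) ^ (n - 1))
        ≤ 70000 * KK a * (n:ℝ) ^ 4 * (3 / 4) ^ (n - 1) := by
      have h7 : 440 * (2 * (n:ℝ)) ^ 2 ≤ 70000 * KK a * (n:ℝ) ^ 4 := by
        calc 440 * (2 * (n:ℝ)) ^ 2 = 1760 * 1 * (n:ℝ) ^ 2 := by ring
          _ ≤ 70000 * KK a * (n:ℝ) ^ 4 := by
            gcongr
            · norm_num
            · linarith
            · norm_num
      calc 440 * ((2 * (n:ℝ)) ^ 2 * (3 / 4) ^ (n - 1))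
          = 440 * (2 * (n:ℝ)) ^ 2 * (3 / 4) ^ (n - 1) := by ring
        _ ≤ _ := by gcongr
    linarith
  have h1' : aa n c 1 ≤ 3 := by
    rw [ha1]
    refine (norm_add_le _ _).trans ?_
    rw [norm_one, norm_pow]; linarith
  have h1'' : sz n c * aa n c 1 ^ (n - 1) ≤ 2 * n := by
    rw [ha1]; unfold sz; nlinarith
  have h2'' : sz n c * aa n c 2 ^ (n - 1) ≤ 2 * n := by
    unfold sz; nlinarith
  have hz2' : ‖c‖ ^ (n - 1) * aa n c 1 ^ (n - 1) ≤ 2 := by rw [ha1]; exact hz2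
  have haa1 := aa_nonneg n c 1
  have haa2 := aa_nonneg n c 2
  have h2' : aa n c 2 ≤ 7 := by
    have h3 : aa n c 2 ≤ 1 + ‖c‖ ^ (n - 1) * aa n c 1 ^ n := by
      unfold aa
      show ‖1 + c ^ (n - 1) * (W n (c ^ (n - 1)) 1) ^ n‖ ≤ _
      refine (norm_add_le _ _).trans ?_
      rw [norm_one, norm_mul, norm_pow, norm_pow]
    have hsp := pow_split (n := n) (by omega) (aa n c 1)
    rw [hsp] at h3
    have h4 : ‖c‖ ^ (n - 1) * (aa n c 1 ^ (n - 1) * aa n c 1) ≤ 2 * 3 := by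
      rw [← mul_assoc]
      gcongr
    linarith
  have h3' : aa n c 3 ≤ 15 := by
    have h3 : aa n c 3 ≤ 1 + ‖c‖ ^ (n - 1) * aa n c 2 ^ n := by
      unfold aa
      show ‖1 + c ^ (n - 1) * (W n (c ^ (n - 1)) 2) ^ n‖ ≤ _
      refine (norm_add_le _ _).trans ?_
      rw [norm_one, norm_mul, norm_pow, norm_pow]
    have hsp := pow_split (n := n) (by omega) (aa n c 2)
    rw [hsp] at h3
    have h4 : ‖c‖ ^ (n - 1) * (aa n c 2 ^ (n - 1) * aa n c 2) ≤ 2 * 7 := by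
      rw [← mul_assoc]
      gcongr
    linarith
  have hs0 := sz_nonneg n c
  have hD2 : D2 n c ≤ 4 * (n:ℝ) ^ 2 := by
    unfold D2
    calc sz n c * (sz n c * aa n c 1 ^ (n - 1)) ≤ (2 * n) * (2 * n) := by gcongr
      _ = _ := by ring
  have hD3 : D3 n c ≤ 8 * (n:ℝ) ^ 3 := by
    unfold D3
    have := D2_nonneg n c
    calc D2 n c * (sz n c * aa n c 2 ^ (n - 1)) ≤ (4 * (n:ℝ) ^ 2) * (2 * n) := by gcongr
      _ = _ := by ring
  exact ⟨ha, hn, hN, hA, hs, hx1, hx2, hs2, h1, h1', h1'', h2', h2'', h3', hD2, hD3⟩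

/-- lower bound for the third iterate on a disc of radius `a / (n s)` -/
theorem low_ball3 {a : ℝ} {n : ℕ} {c0 c : ℂ} (B : Base a n c0)
    (hc : ‖c - c0‖ ≤ a / (n * sz n c0)) (hno : ¬ Att4 n c) :
    1 / 2 ≤ aa n c 1 ∧ 1 / 2 ≤ aa n c 2 ∧
    1 / (3840 * KK a * (sz n c0 * (sz n c0 + D2 n c0))) ≤ aa n c 2 ^ (n - 1) := by
  have ha := B.ha
  have hn : 64 ≤ n := B.hn
  have hn' : (64:ℝ) ≤ n := by exact_mod_cast hn
  have hn0 : (0:ℝ) < n := by linarith
  have hs := B.hs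
  have hs0 : 0 < sz n c0 := by linarith
  have hx1 := B.hx1
  have hK1 := one_le_KK (a := a) (by linarith)
  have hθ : n * ‖c - c0‖ ≤ ‖c0‖ * (2 * a / sz n c0) := by
    calc n * ‖c - c0‖ ≤ n * (a / (n * sz n c0)) := by gcongr
      _ = (1 / 2) * (2 * a / sz n c0) := by field_simp
      _ ≤ ‖c0‖ * (2 * a / sz n c0) := by gcongr
  obtain ⟨b1, b2, b3, -, b5⟩ := ball1 (n := n) (by omega) (c := c) (c0 := c0)
    (θ := 2 * a / sz n c0) (A := 2 * a) (by positivity)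
    (by rw [div_le_div_iff₀ hs0 (by norm_num)]; linarith)
    (by rw [div_mul_cancel₀ _ hs0.ne']) B.hA hθ B.h1
  have hD0 := D2_nonneg n c0
  have hsc := sz_nonneg n c
  have hDc := D2_nonneg n c
  have hexp := exp_le_KK (a := a) (by linarith)
  have hb5 : D2 n c ≤ 4 * KK a * D2 n c0 := b5.trans (by gcongr)
  have hprod : sz n c * (sz n c + D2 n c) ≤ 8 * KK a * (sz n c0 * (sz n c0 + D2 n c0)) := by
    calc sz n c * (sz n c + D2 n c)
        ≤ (2 * sz n c0) * (2 * sz n c0 + 4 * KK a * D2 n c0) := by gcongr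
      _ ≤ (2 * sz n c0) * (4 * KK a * sz n c0 + 4 * KK a * D2 n c0) := by
          gcongr
          nlinarith
      _ = _ := by ring
  have hP : 60 * (sz n c * (sz n c + D2 n c)) * (3 / 5) ^ (n - 1) < 1 := by
    have h1 : sz n c0 * (sz n c0 + D2 n c0) ≤ (2 * n) * (2 * (n:ℝ) ^ 2 + 4 * (n:ℝ) ^ 2) := by
      have h2 := B.hs2
      have h3 := B.hD2
      have h4 : sz n c0 ≤ 2 * (n:ℝ) ^ 2 := by nlinarith
      gcongr
    have h5 : (3 / 5 : ℝ) ^ (n - 1) ≤ (3 / 4) ^ (n - 1) := by gcongr; norm_num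
    have h6 : sz n c * (sz n c + D2 n c)
        ≤ 8 * KK a * ((2 * n) * (2 * (n:ℝ) ^ 2 + 4 * (n:ℝ) ^ 2)) :=
      hprod.trans (mul_le_mul_of_nonneg_left h1 (by positivity))
    calc 60 * (sz n c * (sz n c + D2 n c)) * (3 / 5) ^ (n - 1)
        ≤ 60 * (8 * KK a * ((2 * n) * (2 * (n:ℝ) ^ 2 + 4 * (n:ℝ) ^ 2))) * (3 / 4) ^ (n - 1) :=
          mul_le_mul (mul_le_mul_of_nonneg_left h6 (by norm_num)) h5 (by positivity)
            (by positivity)
      _ = 5760 * KK a * (n:ℝ) ^ 3 * (3 / 4) ^ (n - 1) := by ring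
      _ ≤ 70000 * KK a * (n:ℝ) ^ 4 * (3 / 4) ^ (n - 1) := by
          gcongr
          · norm_num
          · linarith
          · norm_num
      _ < 1 := B.hN
  obtain ⟨l1, l2⟩ := low3 (n := n) (by omega) hno (by linarith) b3 hP
  refine ⟨b3, l1, ?_⟩
  have haa := aa_nonneg n c 2
  rw [div_le_iff₀ (by positivity)]
  calc (1:ℝ) ≤ 8 * (60 * (sz n c * (sz n c + D2 n c))) * aa n c 2 ^ (n - 1) := l2.le
    _ ≤ 8 * (60 * (8 * KK a * (sz n c0 * (sz n c0 + D2 n c0)))) * aa n c 2 ^ (n - 1) := by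
        gcongr
    _ = _ := by ring

/-- lower bound for the fourth iterate on a disc of radius `a / (n (s + D2))` -/
theorem low_ball4 {a : ℝ} {n : ℕ} {c0 c : ℂ} (B : Base a n c0) (hb : 1 / 2 ≤ aa n c0 2)
    (hc : ‖c - c0‖ ≤ a / (n * (sz n c0 + D2 n c0))) (hno : ¬ Att4 n c) :
    1 / (25600 * KK a * (sz n c0 * (sz n c0 + D2 n c0 + D3 n c0))) ≤ aa n c 3 ^ (n - 1) := by
  have ha := B.ha
  have hn : 64 ≤ n := B.hn
  have hn' : (64:ℝ) ≤ n := by exact_mod_cast hn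
  have hn0 : (0:ℝ) < n := by linarith
  have hs := B.hs
  have hs0 : 0 < sz n c0 := by linarith
  have hx1 := B.hx1
  have hD0 := D2_nonneg n c0
  have hE0 := D3_nonneg n c0
  have hK1 := one_le_KK (a := a) (by linarith)
  have hQ : 0 < sz n c0 + D2 n c0 := by linarith
  have hc3 : ‖c - c0‖ ≤ a / (n * sz n c0) := by
    refine hc.trans ?_
    gcongr
    linarith
  obtain ⟨d1, d2, -⟩ := low_ball3 B hc3 hno
  have hθ : n * ‖c - c0‖ ≤ ‖c0‖ * (2 * a / (sz n c0 + D2 n c0)) := by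
    calc n * ‖c - c0‖ ≤ n * (a / (n * (sz n c0 + D2 n c0))) := by gcongr
      _ = (1 / 2) * (2 * a / (sz n c0 + D2 n c0)) := by field_simp
      _ ≤ ‖c0‖ * (2 * a / (sz n c0 + D2 n c0)) := by gcongr
  have hθ0 : 0 ≤ 2 * a / (sz n c0 + D2 n c0) := by positivity
  have hθ1 : 2 * a / (sz n c0 + D2 n c0) ≤ 1 / 4 := by
    rw [div_le_div_iff₀ hQ (by norm_num)]; linarith
  have hθs : 2 * a / (sz n c0 + D2 n c0) * sz n c0 ≤ 2 * a := by
    rw [div_mul_eq_mul_div, div_le_iff₀ hQ]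
    nlinarith
  have hθD : 2 * a / (sz n c0 + D2 n c0) * D2 n c0 ≤ 2 * a := by
    rw [div_mul_eq_mul_div, div_le_iff₀ hQ]
    nlinarith
  obtain ⟨b1, b2, b3, -, b5⟩ := ball1 (n := n) (by omega) (c := c) (c0 := c0)
    (θ := 2 * a / (sz n c0 + D2 n c0)) (A := 2 * a) hθ0 hθ1 hθs B.hA hθ B.h1
  have b6 := ball2 (n := n) (by omega) (c := c) (c0 := c0)
    (θ := 2 * a / (sz n c0 + D2 n c0)) (A := 2 * a) (B := 2 * a) hθ0 hθ1 hθs hθD B.hA
    (by linarith) hθ B.h1 B.h1' hb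
  have hsc := sz_nonneg n c
  have hDc := D2_nonneg n c
  have hEc := D3_nonneg n c
  have hexp := exp_le_KK (a := a) (by linarith)
  have hb5 : D2 n c ≤ 4 * KK a * D2 n c0 := b5.trans (by gcongr)
  have hb6 : D3 n c ≤ 8 * KK a * D3 n c0 := by
    refine b6.trans (le_of_eq ?_)
    unfold KK; ring
  have hprod : sz n c * (sz n c + D2 n c + D3 n c)
      ≤ 16 * KK a * (sz n c0 * (sz n c0 + D2 n c0 + D3 n c0)) := by
    calc sz n c * (sz n c + D2 n c + D3 n c)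
        ≤ (2 * sz n c0) * (2 * sz n c0 + 4 * KK a * D2 n c0 + 8 * KK a * D3 n c0) := by gcongr
      _ ≤ (2 * sz n c0) * (8 * KK a * sz n c0 + 8 * KK a * D2 n c0 + 8 * KK a * D3 n c0) := by
          have h1 : 2 * sz n c0 ≤ 8 * KK a * sz n c0 := by nlinarith
          have h2 : 4 * KK a * D2 n c0 ≤ 8 * KK a * D2 n c0 := by
            have : 0 ≤ KK a * D2 n c0 := by positivity
            linarith
          gcongr
      _ = _ := by ring
  have hP : 200 * (sz n c * (sz n c + D2 n c + D3 n c)) * (3 / 5) ^ (n - 1) < 1 := by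
    have h1 : sz n c0 * (sz n c0 + D2 n c0 + D3 n c0)
        ≤ (2 * n) * ((n:ℝ) ^ 3 + (n:ℝ) ^ 3 + 8 * (n:ℝ) ^ 3) := by
      have h2 := B.hs2
      have h3 := B.hD2
      have h3' := B.hD3
      have h4 : sz n c0 ≤ (n:ℝ) ^ 3 := by
        have : 2 * (n:ℝ) ≤ (n:ℝ) ^ 3 := by
          have : (n:ℝ) ^ 3 = n * (n * n) := by ring
          nlinarith
        linarith
      have h5 : D2 n c0 ≤ (n:ℝ) ^ 3 := by
        have : 4 * (n:ℝ) ^ 2 ≤ (n:ℝ) ^ 3 := by
          have : (n:ℝ) ^ 3 = n * (n:ℝ) ^ 2 := by ring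
          nlinarith [sq_nonneg (n:ℝ)]
        linarith
      gcongr
    have h5 : (3 / 5 : ℝ) ^ (n - 1) ≤ (3 / 4) ^ (n - 1) := by gcongr; norm_num
    have h6 : sz n c * (sz n c + D2 n c + D3 n c)
        ≤ 16 * KK a * ((2 * n) * ((n:ℝ) ^ 3 + (n:ℝ) ^ 3 + 8 * (n:ℝ) ^ 3)) :=
      hprod.trans (mul_le_mul_of_nonneg_left h1 (by positivity))
    calc 200 * (sz n c * (sz n c + D2 n c + D3 n c)) * (3 / 5) ^ (n - 1)
        ≤ 200 * (16 * KK a * ((2 * n) * ((n:ℝ) ^ 3 + (n:ℝ) ^ 3 + 8 * (n:ℝ) ^ 3))) *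
            (3 / 4) ^ (n - 1) :=
          mul_le_mul (mul_le_mul_of_nonneg_left h6 (by norm_num)) h5 (by positivity)
            (by positivity)
      _ = 64000 * KK a * (n:ℝ) ^ 4 * (3 / 4) ^ (n - 1) := by ring
      _ ≤ 70000 * KK a * (n:ℝ) ^ 4 * (3 / 4) ^ (n - 1) := by
          gcongr
          norm_num
      _ < 1 := B.hN
  obtain ⟨l1, l2⟩ := low4 (n := n) (by omega) hno (by linarith) b3 d2 hP
  have haa := aa_nonneg n c 3
  rw [div_le_iff₀ (by positivity)]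
  calc (1:ℝ) ≤ 8 * (200 * (sz n c * (sz n c + D2 n c + D3 n c))) * aa n c 3 ^ (n - 1) := l2.le
    _ ≤ 8 * (200 * (16 * KK a * (sz n c0 * (sz n c0 + D2 n c0 + D3 n c0)))) *
        aa n c 3 ^ (n - 1) := by
        gcongr
    _ = _ := by ring

/-- `D2 = s U`, `|z3/c| ≤ 1 + 3U/n`. -/
theorem w_bound {a : ℝ} {n : ℕ} {c : ℂ} (B : Base a n c) :
    ‖c ^ (n - 1) * (1 + c ^ (n - 1)) ^ n‖ ≤ 3 * (D2 n c / sz n c) / n := by
  have hn : 64 ≤ n := B.hn
  have hn' : (64:ℝ) ≤ n := by exact_mod_cast hn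
  have hn0 : (0:ℝ) < n := by linarith
  have hs0 : 0 < sz n c := by have := B.hs; have := B.ha; linarith
  have ha1 : aa n c 1 = ‖1 + c ^ (n - 1)‖ := by unfold aa; rw [W_one]
  rw [norm_mul, norm_pow, norm_pow, ← ha1, pow_split (n := n) (by omega) (aa n c 1)]
  have h1 := B.h1'
  have h2 := aa_nonneg n c 1
  rw [le_div_iff₀ hn0]
  have h3 : D2 n c / sz n c = sz n c * aa n c 1 ^ (n - 1) := by
    unfold D2; field_simp
  rw [h3]
  calc ‖c‖ ^ (n - 1) * (aa n c 1 ^ (n - 1) * aa n c 1) * n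
      = (sz n c * aa n c 1 ^ (n - 1)) * aa n c 1 := by unfold sz; ring
    _ ≤ (sz n c * aa n c 1 ^ (n - 1)) * 3 := by gcongr
    _ = _ := by ring

/-- the third iterate gives control when `U = D2 / s` is large -/
theorem regimeC {a : ℝ} {n : ℕ} {c0 : ℂ} (B : Base a n c0)
    (hno : ∀ c ∈ ball c0 (a / (n * sz n c0)), ¬ Att4 n c) :
    a * (D2 n c0 / sz n c0) ≤ 224 * (4 * (D2 n c0 / sz n c0) + 2 * Real.log (sz n c0) +
      Real.log (3840 * KK a)) := by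
  have ha := B.ha
  have hn : 64 ≤ n := B.hn
  have hn' : (64:ℝ) ≤ n := by exact_mod_cast hn
  have hn0 : (0:ℝ) < n := by linarith
  have hs := B.hs
  have hs0 : 0 < sz n c0 := by linarith
  have hD0 := D2_nonneg n c0
  have hK1 := one_le_KK (a := a) (by linarith)
  set s := sz n c0 with hsd
  set U := D2 n c0 / s with hU
  have hU0 : 0 ≤ U := by positivity
  have hDU : D2 n c0 = s * U := by rw [hU]; field_simp
  set m : ℝ := 1 / (3840 * KK a * (s * (s + D2 n c0))) with hm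
  have hm0 : 0 < m := by positivity
  have hr0 : 0 < a / (n * s) := by positivity
  have h := sp3 (n := n) (by omega) hr0 hm0 (by linarith) (fun c hc => by
    have hc' : ‖c - c0‖ ≤ a / (n * s) := by
      rw [← dist_eq_norm]; exact (mem_ball.1 hc).le
    exact (low_ball3 B hc' (hno c hc)).2.2)
  have hw := w_bound B
  rw [← hsd, ← hU] at hw
  have haa2 := aa_nonneg n c0 2
  have h2up : aa n c0 2 ^ (n - 1) ≤ Real.exp (3 * U) := by
    have h3 : aa n c0 2 ≤ 1 + 3 * U / n := by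
      unfold aa; rw [W_two]
      refine (norm_add_le _ _).trans ?_
      rw [norm_one]; linarith
    calc aa n c0 2 ^ (n - 1) ≤ (1 + 3 * U / n) ^ (n - 1) := by gcongr
      _ ≤ Real.exp (3 * U) := one_add_div_pow_le (by omega) (by positivity) (by omega)
  have h2low : m ≤ aa n c0 2 ^ (n - 1) :=
    (low_ball3 B (by simp; positivity) (hno c0 (mem_ball_self hr0))).2.2
  have h2pos : 0 < aa n c0 2 ^ (n - 1) := lt_of_lt_of_le hm0 h2low
  set L := Real.log (aa n c0 2 ^ (n - 1) / m) with hL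
  have hL0 : 0 ≤ L := Real.log_nonneg (by rw [le_div_iff₀ hm0]; linarith)
  have hLle : L ≤ 4 * U + 2 * Real.log s + Real.log (3840 * KK a) := by
    have h4 : aa n c0 2 ^ (n - 1) / m ≤ Real.exp (3 * U) * (3840 * KK a * (s * (s * Real.exp U))) := by
      have h5 : aa n c0 2 ^ (n - 1) / m
          = aa n c0 2 ^ (n - 1) * (3840 * KK a * (s * (s + D2 n c0))) := by
        rw [hm]; field_simp
      rw [h5]
      have h6 : s + D2 n c0 ≤ s * Real.exp U := by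
        rw [hDU]
        have := Real.add_one_le_exp U
        nlinarith
      gcongr
    have h7 := Real.log_le_log (div_pos h2pos hm0) h4
    have h8 : Real.log (Real.exp (3 * U) * (3840 * KK a * (s * (s * Real.exp U))))
        = 3 * U + (Real.log (3840 * KK a) + (Real.log s + (Real.log s + U))) := by
      have hKp := KK_pos a
      rw [Real.log_mul (Real.exp_pos _).ne' (by positivity), Real.log_exp,
        Real.log_mul (by positivity) (by positivity), Real.log_mul hs0.ne' (by positivity),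
        Real.log_mul hs0.ne' (Real.exp_pos _).ne', Real.log_exp]
    rw [h8] at h7
    linarith
  have h9 : ((n:ℝ) - 1) * D2 n c0 * (a / (n * s)) ≤ 112 * L := by
    refine h.trans ?_
    have h10 : 8 * ‖c0‖ * aa n c0 2 ≤ 8 * 2 * 7 := by
      have := B.hx2
      have := B.h2'
      gcongr
    nlinarith
  have h11 : a * U / 2 ≤ ((n:ℝ) - 1) * D2 n c0 * (a / (n * s)) := by
    have h12 : ((n:ℝ) - 1) * D2 n c0 * (a / (n * s)) = a * U * ((n - 1) / n) := by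
      rw [hDU]; field_simp
    rw [h12]
    have h13 : (1:ℝ) / 2 ≤ (n - 1) / n := by
      rw [div_le_div_iff₀ (by norm_num) hn0]; linarith
    have : 0 ≤ a * U := by positivity
    nlinarith
  nlinarith

/-- the fourth iterate -/
theorem regimeAB {a : ℝ} {n : ℕ} {c0 : ℂ} (B : Base a n c0) (hb : 28 ≤ D2 n c0)
    (hno : ∀ c ∈ ball c0 (a / (n * (sz n c0 + D2 n c0))), ¬ Att4 n c) :
    a * (D3 n c0 / (sz n c0 + D2 n c0)) ≤ 960 * Real.log (aa n c0 3 ^ (n - 1) *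
      (25600 * KK a * (sz n c0 * (sz n c0 + D2 n c0 + D3 n c0)))) ∧
      0 < aa n c0 3 ^ (n - 1) ∧ 1 / 2 ≤ aa n c0 2 := by
  have ha := B.ha
  have hn : 64 ≤ n := B.hn
  have hn' : (64:ℝ) ≤ n := by exact_mod_cast hn
  have hn0 : (0:ℝ) < n := by linarith
  have hs := B.hs
  have hs0 : 0 < sz n c0 := by linarith
  have hD0 := D2_nonneg n c0
  have hE0 := D3_nonneg n c0
  have hKp := KK_pos a
  set s := sz n c0 with hsd
  set Q := s + D2 n c0 with hQ
  have hQ0 : 0 < Q := by linarith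
  set m : ℝ := 1 / (25600 * KK a * (s * (Q + D3 n c0))) with hm
  have hm0 : 0 < m := by positivity
  have hr0 : 0 < a / (n * Q) := by positivity
  have hself := hno c0 (mem_ball_self hr0)
  have hb2 : 1 / 2 ≤ aa n c0 2 := (low_ball3 B (by simp; positivity) hself).2.1
  have h := sp4 (n := n) (by omega) hr0 hm0 (by linarith) (by have := B.h2'; linarith)
    (fun c hc => by
    have hc' : ‖c - c0‖ ≤ a / (n * Q) := by
      rw [← dist_eq_norm]; exact (mem_ball.1 hc).le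
    exact low_ball4 B hb2 hc' (hno c hc))
  have h3low : m ≤ aa n c0 3 ^ (n - 1) :=
    low_ball4 B hb2 (by simp; positivity) hself
  have h3pos : 0 < aa n c0 3 ^ (n - 1) := lt_of_lt_of_le hm0 h3low
  refine ⟨?_, h3pos, hb2⟩
  have hdiv : aa n c0 3 ^ (n - 1) / m = aa n c0 3 ^ (n - 1) * (25600 * KK a * (s * (Q + D3 n c0))) := by
    rw [hm]; field_simp
  rw [hdiv] at h
  set L := Real.log (aa n c0 3 ^ (n - 1) * (25600 * KK a * (s * (Q + D3 n c0)))) with hL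
  have hL0 : 0 ≤ L := by
    refine Real.log_nonneg ?_
    rw [← hdiv, le_div_iff₀ hm0]; linarith
  have haa3 := aa_nonneg n c0 3
  have h9 : ((n:ℝ) - 1) * D3 n c0 * (a / (n * Q)) ≤ 480 * L := by
    refine h.trans ?_
    have h10 : 16 * ‖c0‖ * aa n c0 3 ≤ 16 * 2 * 15 := by
      have := B.hx2
      have := B.h3'
      gcongr
    nlinarith
  have h11 : a * (D3 n c0 / Q) / 2 ≤ ((n:ℝ) - 1) * D3 n c0 * (a / (n * Q)) := by
    have h12 : ((n:ℝ) - 1) * D3 n c0 * (a / (n * Q)) = a * (D3 n c0 / Q) * ((n - 1) / n) := by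
      field_simp
    rw [h12]
    have h13 : (1:ℝ) / 2 ≤ (n - 1) / n := by
      rw [div_le_div_iff₀ (by norm_num) hn0]; linarith
    have : 0 ≤ a * (D3 n c0 / Q) := by positivity
    nlinarith
  linarith

end Pool.Agent.TH937.LF
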