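import Pool.Agent.TH937.LF.Low

/-!
# Schwarz-Pick estimates for the third and the fourth iterate
-/

set_option autoImplicit false
open Complex Metric Set Filter Topology
open N62a1eb23
open Pool.Agent.H749R2.Hyp

namespace Pool.Agent.TH937.LF

theorem z3_le {n : ℕ} (hn : 2 ≤ n) {c : ℂ} (hc : c ∈ multibrotSet n) :
    ‖c‖ ^ (n - 1) * aa n c 2 ^ (n - 1) ≤ 2 := by
  rw [← mul_pow, ← norm_iter hn]
  by_contra h
  push Not at h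
  have hk : (f n c)^[3] 0 = (f n c)^[2] c := by
    rw [Function.iterate_succ_apply]
    congr 1
    simp [f, zero_pow (show n ≠ 0 by omega)]
  rcases le_or_gt ‖c‖ ‖(f n c)^[2] c‖ with h1 | h1
  · exact not_mem_of_gt hn (c := c) (z := (f n c)^[2] c) (k := 3) hk h1 h hc
  · have h2 := t_le_two hn hc
    have h3 : ‖(f n c)^[2] c‖ ^ (n - 1) ≤ ‖c‖ ^ (n - 1) := by gcongr
    linarith

theorem hasDerivAt_v (n : ℕ) (c : ℂ) :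
    HasDerivAt (fun c : ℂ => c ^ (n - 1)) (((n - 1 : ℕ) : ℂ) * c ^ (n - 1 - 1)) c :=
  hasDerivAt_pow (n - 1) c

/-- derivative of `ζ3 = 1 + v (1 + v) ^ n` with respect to `c` -/
theorem hasDerivAt_z3 {n : ℕ} (hn : 2 ≤ n) (c : ℂ) :
    HasDerivAt (fun c : ℂ => 1 + c ^ (n - 1) * (1 + c ^ (n - 1)) ^ n)
      ((((n - 1 : ℕ) : ℂ) * c ^ (n - 1 - 1)) * ((1 + c ^ (n - 1)) ^ (n - 1) *
        (1 + ((n:ℂ) + 1) * c ^ (n - 1)))) c := by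
  have h1 := ((hasDerivAt_v n c).mul (((hasDerivAt_v n c).const_add 1).fun_pow n)).const_add 1
  refine h1.congr_deriv ?_
  have h2 : (1 + c ^ (n - 1)) ^ n = (1 + c ^ (n - 1)) ^ (n - 1) * (1 + c ^ (n - 1)) := by
    generalize c ^ (n - 1) = v
    conv_lhs => rw [show n = (n - 1) + 1 by omega]
    rw [pow_succ]
  rw [h2]
  ring

/-- derivative of `ζ4 = 1 + v ζ3 ^ n` with respect to `c` -/
theorem hasDerivAt_z4 {n : ℕ} (hn : 2 ≤ n) (c : ℂ) :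
    HasDerivAt (fun c : ℂ => 1 + c ^ (n - 1) * (1 + c ^ (n - 1) * (1 + c ^ (n - 1)) ^ n) ^ n)
      ((((n - 1 : ℕ) : ℂ) * c ^ (n - 1 - 1)) *
        ((1 + c ^ (n - 1) * (1 + c ^ (n - 1)) ^ n) ^ (n - 1) *
        ((1 + c ^ (n - 1) * (1 + c ^ (n - 1)) ^ n) +
          (n:ℂ) * c ^ (n - 1) * ((1 + c ^ (n - 1)) ^ (n - 1) *
            (1 + ((n:ℂ) + 1) * c ^ (n - 1)))))) c := by
  have h1 := ((hasDerivAt_v n c).mul ((hasDerivAt_z3 hn c).fun_pow n)).const_add 1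
  refine h1.congr_deriv ?_
  have h2 : ∀ w : ℂ, w ^ n = w ^ (n - 1) * w := by
    intro w
    conv_lhs => rw [show n = (n - 1) + 1 by omega]
    rw [pow_succ]
  have h3 := h2 (1 + c ^ (n - 1) * (1 + c ^ (n - 1)) ^ n)
  rw [h3]
  ring

/-- Schwarz-Pick for the `(n-1)`-st power of a holomorphic function -/
theorem sp_gen {n : ℕ} (hn : 2 ≤ n) {g : ℂ → ℂ} {g' c0 : ℂ} {r m : ℝ} (hr : 0 < r) (hm : 0 < m)
    (hg : Differentiable ℂ g) (hg' : HasDerivAt g g' c0)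
    (hlow : ∀ c ∈ ball c0 r, m ≤ ‖g c‖ ^ (n - 1)) :
    ((n:ℝ) - 1) * ‖g'‖ * r ≤ 2 * ‖g c0‖ * Real.log (‖g c0‖ ^ (n - 1) / m) := by
  have hn' : (2:ℝ) ≤ n := by exact_mod_cast hn
  have h := log_schwarz (h := fun c => (g c) ^ (n - 1)) (c := c0) (m := m) hr hm
    (by fun_prop) (by
      intro z hz
      rw [norm_pow]
      exact hlow z hz)
  have hder := (hg'.fun_pow (n - 1)).deriv
  rw [hder] at h
  simp only [norm_mul, Complex.norm_natCast, norm_pow] at h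
  rw [Nat.cast_sub (by omega), Nat.cast_one] at h
  have hc := hlow c0 (mem_ball_self hr)
  have hpos : 0 < ‖g c0‖ := by
    rcases (norm_nonneg (g c0)).lt_or_eq with h0 | h0
    · exact h0
    · exfalso
      rw [← h0, zero_pow (by omega)] at hc
      linarith
  have h2 : ‖g c0‖ ^ (n - 1) = ‖g c0‖ ^ (n - 1 - 1) * ‖g c0‖ := pow_pred _ hn
  have hp : 0 < ‖g c0‖ ^ (n - 1 - 1) := by positivity
  set L := Real.log (‖g c0‖ ^ (n - 1) / m) with hL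
  refine le_of_mul_le_mul_left ?_ hp
  calc ‖g c0‖ ^ (n - 1 - 1) * (((n:ℝ) - 1) * ‖g'‖ * r)
      = ((n:ℝ) - 1) * ‖g c0‖ ^ (n - 1 - 1) * ‖g'‖ * r := by ring
    _ ≤ 2 * ‖g c0‖ ^ (n - 1) * L := h
    _ = _ := by rw [h2]; ring

theorem lin_lower {n : ℕ} {v : ℂ} (hs : 2 ≤ n * ‖v‖) :
    n * ‖v‖ / 2 ≤ ‖1 + ((n:ℂ) + 1) * v‖ := by
  have h3 : ‖((n:ℂ) + 1) * v‖ = (n + 1) * ‖v‖ := by
    rw [norm_mul]
    congr 1
    have : ((n:ℂ) + 1) = ((n + 1 : ℕ) : ℂ) := by push_cast; ring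
    rw [this, Complex.norm_natCast]; push_cast; ring
  have h4 := norm_sub_le (1 + ((n:ℂ) + 1) * v) 1
  rw [add_sub_cancel_left, h3, norm_one] at h4
  have := norm_nonneg v
  nlinarith

theorem norm_v' {n : ℕ} (hn : 2 ≤ n) (c : ℂ) :
    ‖c‖ * ‖((n - 1 : ℕ) : ℂ) * c ^ (n - 1 - 1)‖ = (n - 1) * ‖c‖ ^ (n - 1) := by
  rw [norm_mul, Complex.norm_natCast, norm_pow, Nat.cast_sub (by omega), Nat.cast_one]
  have := pow_pred ‖c‖ hn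
  rw [this]; ring

/-- third iterate -/
theorem sp3 {n : ℕ} (hn : 2 ≤ n) {c0 : ℂ} {r m : ℝ} (hr : 0 < r) (hm : 0 < m)
    (hs : 2 ≤ sz n c0) (hlow : ∀ c ∈ ball c0 r, m ≤ aa n c 2 ^ (n - 1)) :
    ((n:ℝ) - 1) * D2 n c0 * r ≤ 8 * ‖c0‖ * aa n c0 2 * Real.log (aa n c0 2 ^ (n - 1) / m) := by
  have hn' : (2:ℝ) ≤ n := by exact_mod_cast hn
  have hg : ∀ c, aa n c 2 = ‖1 + c ^ (n - 1) * (1 + c ^ (n - 1)) ^ n‖ := by
    intro c; unfold aa; rw [W_two]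
  have h := sp_gen (n := n) hn (g := fun c => 1 + c ^ (n - 1) * (1 + c ^ (n - 1)) ^ n) hr hm
    (by fun_prop) (hasDerivAt_z3 hn c0) (by
      intro c hc
      rw [← hg]; exact hlow c hc)
  rw [← hg] at h
  have hsz : sz n c0 = n * ‖c0 ^ (n - 1)‖ := by rw [norm_pow, sz]
  have hlin := lin_lower (n := n) (v := c0 ^ (n - 1)) (by rw [← hsz]; exact hs)
  rw [← hsz] at hlin
  have ha1 : aa n c0 1 = ‖1 + c0 ^ (n - 1)‖ := by unfold aa; rw [W_one]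
  have hs0 := sz_nonneg n c0
  have haa := aa_nonneg n c0 1
  have hder : D2 n c0 / 4 ≤ ‖c0‖ * ‖(((n - 1 : ℕ) : ℂ) * c0 ^ (n - 1 - 1)) *
      ((1 + c0 ^ (n - 1)) ^ (n - 1) * (1 + ((n:ℂ) + 1) * c0 ^ (n - 1)))‖ := by
    rw [norm_mul, ← mul_assoc, norm_v' hn, norm_mul, norm_pow, ← ha1]
    have h1 : sz n c0 / 2 ≤ (n - 1) * ‖c0‖ ^ (n - 1) := by
      unfold sz
      have : 0 ≤ ‖c0‖ ^ (n - 1) := by positivity
      nlinarith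
    have hnn : 0 ≤ ((n:ℝ) - 1) * ‖c0‖ ^ (n - 1) := mul_nonneg (by linarith) (by positivity)
    calc D2 n c0 / 4 = (sz n c0 / 2) * (aa n c0 1 ^ (n - 1) * (sz n c0 / 2)) := by
          unfold D2; ring
      _ ≤ _ := by gcongr
  set G := ‖(((n - 1 : ℕ) : ℂ) * c0 ^ (n - 1 - 1)) *
      ((1 + c0 ^ (n - 1)) ^ (n - 1) * (1 + ((n:ℂ) + 1) * c0 ^ (n - 1)))‖ with hG
  set L := Real.log (aa n c0 2 ^ (n - 1) / m) with hL
  have hn1 : (0:ℝ) ≤ n - 1 := by linarith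
  calc ((n:ℝ) - 1) * D2 n c0 * r = 4 * (((n:ℝ) - 1) * (D2 n c0 / 4) * r) := by ring
    _ ≤ 4 * (((n:ℝ) - 1) * (‖c0‖ * G) * r) := by gcongr
    _ = 4 * ‖c0‖ * (((n:ℝ) - 1) * G * r) := by ring
    _ ≤ 4 * ‖c0‖ * (2 * aa n c0 2 * L) := by gcongr
    _ = _ := by ring

/-- fourth iterate -/
theorem sp4 {n : ℕ} (hn : 2 ≤ n) {c0 : ℂ} {r m : ℝ} (hr : 0 < r) (hm : 0 < m)
    (hs : 2 ≤ sz n c0) (hD : 4 * aa n c0 2 ≤ D2 n c0)
    (hlow : ∀ c ∈ ball c0 r, m ≤ aa n c 3 ^ (n - 1)) :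
    ((n:ℝ) - 1) * D3 n c0 * r ≤ 16 * ‖c0‖ * aa n c0 3 * Real.log (aa n c0 3 ^ (n - 1) / m) := by
  have hn' : (2:ℝ) ≤ n := by exact_mod_cast hn
  have hg : ∀ c, aa n c 3 = ‖1 + c ^ (n - 1) * (1 + c ^ (n - 1) * (1 + c ^ (n - 1)) ^ n) ^ n‖ := by
    intro c; unfold aa; rw [W_three]
  have hg2 : aa n c0 2 = ‖1 + c0 ^ (n - 1) * (1 + c0 ^ (n - 1)) ^ n‖ := by
    unfold aa; rw [W_two]
  have h := sp_gen (n := n) hn
    (g := fun c => 1 + c ^ (n - 1) * (1 + c ^ (n - 1) * (1 + c ^ (n - 1)) ^ n) ^ n) hr hm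
    (by fun_prop) (hasDerivAt_z4 hn c0) (by
      intro c hc
      rw [← hg]; exact hlow c hc)
  rw [← hg] at h
  have hsz : sz n c0 = n * ‖c0 ^ (n - 1)‖ := by rw [norm_pow, sz]
  have hlin := lin_lower (n := n) (v := c0 ^ (n - 1)) (by rw [← hsz]; exact hs)
  rw [← hsz] at hlin
  have ha1 : aa n c0 1 = ‖1 + c0 ^ (n - 1)‖ := by unfold aa; rw [W_one]
  have hs0 := sz_nonneg n c0
  have haa := aa_nonneg n c0 1
  have haa2 := aa_nonneg n c0 2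
  have hD0 := D2_nonneg n c0
  have hbr : D2 n c0 / 4 ≤ ‖(1 + c0 ^ (n - 1) * (1 + c0 ^ (n - 1)) ^ n) +
          (n:ℂ) * c0 ^ (n - 1) * ((1 + c0 ^ (n - 1)) ^ (n - 1) *
            (1 + ((n:ℂ) + 1) * c0 ^ (n - 1)))‖ := by
    have h1 : D2 n c0 / 2 ≤ ‖(n:ℂ) * c0 ^ (n - 1) * ((1 + c0 ^ (n - 1)) ^ (n - 1) *
            (1 + ((n:ℂ) + 1) * c0 ^ (n - 1)))‖ := by
      rw [norm_mul, norm_mul, Complex.norm_natCast, ← hsz, norm_mul, norm_pow, ← ha1]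
      calc D2 n c0 / 2 = sz n c0 * (aa n c0 1 ^ (n - 1) * (sz n c0 / 2)) := by unfold D2; ring
        _ ≤ _ := by gcongr
    have h2 := norm_sub_le ((1 + c0 ^ (n - 1) * (1 + c0 ^ (n - 1)) ^ n) +
          (n:ℂ) * c0 ^ (n - 1) * ((1 + c0 ^ (n - 1)) ^ (n - 1) *
            (1 + ((n:ℂ) + 1) * c0 ^ (n - 1)))) (1 + c0 ^ (n - 1) * (1 + c0 ^ (n - 1)) ^ n)
    rw [add_sub_cancel_left, ← hg2] at h2
    linarith
  have hder : D3 n c0 / 8 ≤ ‖c0‖ * ‖(((n - 1 : ℕ) : ℂ) * c0 ^ (n - 1 - 1)) *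
        ((1 + c0 ^ (n - 1) * (1 + c0 ^ (n - 1)) ^ n) ^ (n - 1) *
        ((1 + c0 ^ (n - 1) * (1 + c0 ^ (n - 1)) ^ n) +
          (n:ℂ) * c0 ^ (n - 1) * ((1 + c0 ^ (n - 1)) ^ (n - 1) *
            (1 + ((n:ℂ) + 1) * c0 ^ (n - 1)))))‖ := by
    rw [norm_mul, ← mul_assoc, norm_v' hn, norm_mul, norm_pow, ← hg2]
    have h1 : sz n c0 / 2 ≤ (n - 1) * ‖c0‖ ^ (n - 1) := by
      unfold sz
      have : 0 ≤ ‖c0‖ ^ (n - 1) := by positivity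
      nlinarith
    have hnn : 0 ≤ ((n:ℝ) - 1) * ‖c0‖ ^ (n - 1) := mul_nonneg (by linarith) (by positivity)
    calc D3 n c0 / 8 = (sz n c0 / 2) * (aa n c0 2 ^ (n - 1) * (D2 n c0 / 4)) := by
          unfold D3; ring
      _ ≤ _ := by gcongr
  set G := ‖(((n - 1 : ℕ) : ℂ) * c0 ^ (n - 1 - 1)) *
        ((1 + c0 ^ (n - 1) * (1 + c0 ^ (n - 1)) ^ n) ^ (n - 1) *
        ((1 + c0 ^ (n - 1) * (1 + c0 ^ (n - 1)) ^ n) +
          (n:ℂ) * c0 ^ (n - 1) * ((1 + c0 ^ (n - 1)) ^ (n - 1) *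
            (1 + ((n:ℂ) + 1) * c0 ^ (n - 1)))))‖ with hG
  set L := Real.log (aa n c0 3 ^ (n - 1) / m) with hL
  have hn1 : (0:ℝ) ≤ n - 1 := by linarith
  calc ((n:ℝ) - 1) * D3 n c0 * r = 8 * (((n:ℝ) - 1) * (D3 n c0 / 8) * r) := by ring
    _ ≤ 8 * (((n:ℝ) - 1) * (‖c0‖ * G) * r) := by gcongr
    _ = 8 * ‖c0‖ * (((n:ℝ) - 1) * G * r) := by ring
    _ ≤ 8 * ‖c0‖ * (2 * aa n c0 3 * L) := by gcongr
    _ = _ := by ring

end Pool.Agent.TH937.LF
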